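import Mathlib

set_option autoImplicit false

open MeasureTheory Set

namespace Pool.Agent.Helper22TC

/-- Coordinate data of a compact convex plane body `K ⊆ [0,1+ε] × ℝ` which contains `(0,0)` and
`(1+ε,0)`: `T` is the upper boundary function, `-U` the lower boundary function. -/
structure Frame (ε : ℝ) (T U : ℝ → ℝ) : Prop where
  eps_nonneg : 0 ≤ ε
  concT : ConcaveOn ℝ (Icc 0 (1 + ε)) T
  concU : ConcaveOn ℝ (Icc 0 (1 + ε)) U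
  T0 : 0 ≤ T 0
  Tw : 0 ≤ T (1 + ε)
  U0 : 0 ≤ U 0
  Uw : 0 ≤ U (1 + ε)
  intT : IntervalIntegrable T volume 0 (1 + ε)
  intU : IntervalIntegrable U volume 0 (1 + ε)
  /-- the maximal vertical chord is attained -/
  peak : ∃ x ∈ Icc 0 (1 + ε), ∀ y ∈ Icc 0 (1 + ε), T y + U y ≤ T x + U x
  /-- there is a vertical chord of length `1+ε` -/
  vert : ∃ x ∈ Icc 0 (1 + ε), 1 + ε ≤ T x + U x
  /-- `{A, A+(1,0), A+(cos φ, sin φ), A+(cos (60-φ), -sin (60-φ))} ⊆ K` with `A = (s,y)` -/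
  right : ∀ φ ∈ Icc 0 (Real.pi / 3), ∃ s ∈ Icc 0 ε, ∃ y : ℝ,
    y ≤ T s ∧ -y ≤ U s ∧ y ≤ T (s + 1) ∧ -y ≤ U (s + 1) ∧
    y + Real.sin φ ≤ T (s + Real.cos φ) ∧
    Real.sin (Real.pi / 3 - φ) - y ≤ U (s + Real.cos (Real.pi / 3 - φ))
  /-- the mirror images, `A = (1+ε-s, y)` -/
  left : ∀ φ ∈ Icc 0 (Real.pi / 3), ∃ s ∈ Icc 0 ε, ∃ y : ℝ,
    y ≤ T (1 + ε - s) ∧ -y ≤ U (1 + ε - s) ∧ y ≤ T (1 + ε - (s + 1)) ∧
    -y ≤ U (1 + ε - (s + 1)) ∧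
    y + Real.sin φ ≤ T (1 + ε - (s + Real.cos φ)) ∧
    Real.sin (Real.pi / 3 - φ) - y ≤ U (1 + ε - (s + Real.cos (Real.pi / 3 - φ)))
  /-- a chord of length `1+ε` in direction 60 degrees -/
  chord60 : ∃ x ∈ Icc 0 ((1 + ε) / 2),
    Real.sqrt 3 / 2 * (1 + ε) ≤ T (x + (1 + ε) / 2) + U x
  /-- a chord of length `1+ε` in direction 120 degrees -/
  chord120 : ∃ x ∈ Icc 0 ((1 + ε) / 2),
    Real.sqrt 3 / 2 * (1 + ε) ≤ T x + U (x + (1 + ε) / 2)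

end Pool.Agent.Helper22TC
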