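import Mathlib

set_option autoImplicit false

open MeasureTheory Set

namespace Pool.Agent.Helper22TC

variable {w : ℝ} {T : ℝ → ℝ}

lemma conc_interp (hT : ConcaveOn ℝ (Icc 0 w) T) {x y z : ℝ} (hx : 0 ≤ x) (hxy : x ≤ y)
    (hyz : y ≤ z) (hz : z ≤ w) : T x * (z - y) + T z * (y - x) ≤ T y * (z - x) := by
  rcases eq_or_lt_of_le (hxy.trans hyz) with h | h
  · have h1 : y = x := le_antisymm (by linarith) hxy
    have h2 : z = x := h.symm
    subst h1; rw [h2]; simp
  · have hxm : x ∈ Icc 0 w := ⟨hx, by linarith⟩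
    have hzm : z ∈ Icc 0 w := ⟨by linarith, hz⟩
    have hzx : 0 < z - x := by linarith
    have ha : 0 ≤ (z - y) / (z - x) := div_nonneg (by linarith) hzx.le
    have hb : 0 ≤ (y - x) / (z - x) := div_nonneg (by linarith) hzx.le
    have hab : (z - y) / (z - x) + (y - x) / (z - x) = 1 := by field_simp; ring
    have key := hT.2 hxm hzm ha hb hab
    simp only [smul_eq_mul] at key
    have e : (z - y) / (z - x) * x + (y - x) / (z - x) * z = y := by
      field_simp; ring
    rw [e] at key
    have := mul_le_mul_of_nonneg_right key hzx.le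
    calc T x * (z - y) + T z * (y - x)
        = ((z - y) / (z - x) * T x + (y - x) / (z - x) * T z) * (z - x) := by
          field_simp
      _ ≤ T y * (z - x) := this

/-- interpolation with lower bounds at the ends -/
lemma conc_interp' (hT : ConcaveOn ℝ (Icc 0 w) T) {x y z α β : ℝ} (hx : 0 ≤ x) (hxy : x ≤ y)
    (hyz : y ≤ z) (hz : z ≤ w) (hα : α ≤ T x) (hβ : β ≤ T z) :
    α * (z - y) + β * (y - x) ≤ T y * (z - x) := by
  have h := conc_interp hT hx hxy hyz hz
  nlinarith [mul_le_mul_of_nonneg_right hα (sub_nonneg.2 hyz),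
    mul_le_mul_of_nonneg_right hβ (sub_nonneg.2 hxy)]

lemma sub_int {a b p q : ℝ} (h : IntervalIntegrable T volume a b) (ha : a ≤ p)
    (hp : p ≤ q) (hq : q ≤ b) : IntervalIntegrable T volume p q := by
  apply h.mono_set
  rw [uIcc_of_le hp, uIcc_of_le (by linarith)]
  exact Icc_subset_Icc ha hq

/-- trapezoid inequality -/
lemma trap (hT : ConcaveOn ℝ (Icc 0 w) T) (hi : IntervalIntegrable T volume 0 w) {p q α β : ℝ}
    (hp : 0 ≤ p) (hpq : p ≤ q) (hq : q ≤ w) (hα : α ≤ T p) (hβ : β ≤ T q) :
    (q - p) * (α + β) ≤ 2 * ∫ x in p..q, T x := by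
  rcases eq_or_lt_of_le hpq with h | h
  · subst h; simp
  · have hqp : 0 < q - p := by linarith
    have hi' : IntervalIntegrable T volume p q := sub_int hi hp hpq hq
    have hlin : IntervalIntegrable (fun x => (α * (q - x) + β * (x - p)) / (q - p)) volume p q :=
      (by fun_prop : Continuous (fun x => (α * (q - x) + β * (x - p)) / (q - p))).intervalIntegrable
        _ _
    have hmono : ∫ x in p..q, (α * (q - x) + β * (x - p)) / (q - p) ≤ ∫ x in p..q, T x := by
      apply intervalIntegral.integral_mono_on hpq hlin hi'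
      intro x hx
      rw [div_le_iff₀ hqp]
      exact conc_interp' hT hp hx.1 hx.2 hq hα hβ
    have hval : ∫ x in p..q, (α * (q - x) + β * (x - p)) / (q - p) = (q - p) * (α + β) / 2 := by
      have hd : ∀ x ∈ uIcc p q, HasDerivAt
          (fun x => (-(α * (q - x) ^ 2) / 2 + β * (x - p) ^ 2 / 2) / (q - p))
          ((α * (q - x) + β * (x - p)) / (q - p)) x := by
        intro x _
        have h1 : HasDerivAt (fun x : ℝ => (q - x) ^ 2) (2 * (q - x) ^ 1 * (-1)) x := by
          simpa using ((hasDerivAt_id x).const_sub q).fun_pow 2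
        have h2 : HasDerivAt (fun x : ℝ => (x - p) ^ 2) (2 * (x - p) ^ 1 * 1) x := by
          simpa using ((hasDerivAt_id x).sub_const p).fun_pow 2
        have h3 := (((h1.const_mul α).neg.div_const 2).add ((h2.const_mul β).div_const 2)).div_const
          (q - p)
        exact h3.congr_deriv (by ring)
      rw [intervalIntegral.integral_eq_sub_of_hasDerivAt hd hlin]
      field_simp
      ring
    rw [hval] at hmono
    linarith

/-- generalized trapezoid inequality: `z` need not lie between `p` and `q` -/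
lemma trap3 (hT : ConcaveOn ℝ (Icc 0 w) T) (hi : IntervalIntegrable T volume 0 w) {p q z : ℝ}
    (hp : 0 ≤ p) (hpq : p ≤ q) (hq : q ≤ w) (hz0 : 0 ≤ z) (hzw : z ≤ w) :
    (q - p) * T z + (q - z) * T q + (z - p) * T p ≤ 2 * ∫ x in p..q, T x := by
  rcases le_total z p with h1 | h1
  · have t := trap hT hi hp hpq hq le_rfl le_rfl
    have c := conc_interp hT hz0 h1 hpq hq
    nlinarith
  · rcases le_total z q with h2 | h2
    · have t1 := trap hT hi hp h1 (h2.trans hq) le_rfl le_rfl
      have t2 := trap hT hi hz0 h2 hq le_rfl le_rfl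
      have e : ∫ x in p..q, T x = (∫ x in p..z, T x) + ∫ x in z..q, T x :=
        (intervalIntegral.integral_add_adjacent_intervals
          (sub_int hi hp h1 (h2.trans hq)) (sub_int hi hz0 h2 hq)).symm
      rw [e]
      nlinarith
    · have t := trap hT hi hp hpq hq le_rfl le_rfl
      have c := conc_interp hT hp hpq h2 hzw
      nlinarith

end Pool.Agent.Helper22TC
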