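import Mathlib
import Pool.Agent.Helper22_TC.Defs
import Pool.Agent.Helper22_TC.Conc

set_option autoImplicit false

open MeasureTheory Set

namespace Pool.Agent.Helper22TC

variable {ε : ℝ} {T U : ℝ → ℝ}

/-- the target area -/
noncomputable def Astar : ℝ := Real.pi / 6 + 2 * Real.sqrt 3 - 3

lemma sqrt3_sq : Real.sqrt 3 * Real.sqrt 3 = 3 := Real.mul_self_sqrt (by norm_num)

lemma sqrt3_lb : (1.7320508 : ℝ) < Real.sqrt 3 := by
  rw [Real.lt_sqrt (by norm_num)]; norm_num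

lemma sqrt3_ub : Real.sqrt 3 < 1.73205081 := by
  rw [Real.sqrt_lt' (by norm_num)]; norm_num

lemma Astar_ub : Astar < 0.98770052 := by
  unfold Astar
  have := Real.pi_lt_d6
  have := sqrt3_ub
  linarith

lemma Frame.right0 (h : Frame ε T U) : ∃ s ∈ Icc 0 ε, ∃ y : ℝ,
    y ≤ T s ∧ y ≤ T (s + 1) ∧ Real.sqrt 3 / 2 - y ≤ U (s + 1 / 2) := by
  obtain ⟨s, hs, y, h1, _, h3, _, _, h6⟩ := h.right 0 ⟨le_rfl, by positivity⟩
  refine ⟨s, hs, y, h1, h3, ?_⟩
  simpa [Real.sin_pi_div_three, Real.cos_pi_div_three] using h6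

lemma Frame.right60 (h : Frame ε T U) : ∃ s ∈ Icc 0 ε, ∃ y : ℝ,
    -y ≤ U s ∧ -y ≤ U (s + 1) ∧ Real.sqrt 3 / 2 + y ≤ T (s + 1 / 2) := by
  obtain ⟨s, hs, y, _, h2, _, h4, h5, _⟩ :=
    h.right (Real.pi / 3) ⟨by positivity, le_rfl⟩
  refine ⟨s, hs, y, h2, h4, ?_⟩
  have : y + Real.sqrt 3 / 2 ≤ T (s + 1 / 2) := by
    simpa [Real.sin_pi_div_three, Real.cos_pi_div_three] using h5
  linarith

lemma num_mid (h1 : 0.1405 ≤ ε) : Astar ≤ Real.sqrt 3 * (1 + ε) / 2 := by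
  have hA := Astar_ub
  have h3 := sqrt3_lb
  nlinarith

theorem area_mid (h : Frame ε T U) (h1 : 0.1405 ≤ ε) (h2 : ε ≤ 1 / 2) :
    Astar ≤ ∫ x in (0 : ℝ)..(1 + ε), (T x + U x) := by
  obtain ⟨s0, hs0, y0, a1, a2, a3⟩ := h.right0
  obtain ⟨s6, hs6, y6, b1, b2, b3⟩ := h.right60
  obtain ⟨x1, hx1, c1⟩ := h.chord60
  obtain ⟨x2, hx2, c2⟩ := h.chord120
  have hs0' := hs0.1
  have hs0'' := hs0.2
  have hs6' := hs6.1
  have hs6'' := hs6.2
  have hx1' := hx1.1
  have hx1'' := hx1.2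
  have hx2' := hx2.1
  have hx2'' := hx2.2
  have t1 := trap3 h.concT h.intT (p := 0) (q := x2) (z := s0) le_rfl hx2' (by linarith) hs0'
    (by linarith)
  have t2 := trap3 h.concT h.intT (p := x2) (q := x1 + (1 + ε) / 2) (z := s6 + 1 / 2) hx2'
    (by linarith) (by linarith) (by linarith) (by linarith)
  have t3 := trap3 h.concT h.intT (p := x1 + (1 + ε) / 2) (q := 1 + ε) (z := s0 + 1)
    (by linarith) (by linarith) le_rfl (by linarith) (by linarith)
  have u1 := trap3 h.concU h.intU (p := 0) (q := x1) (z := s6) le_rfl hx1' (by linarith) hs6'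
    (by linarith)
  have u2 := trap3 h.concU h.intU (p := x1) (q := x2 + (1 + ε) / 2) (z := s0 + 1 / 2) hx1'
    (by linarith) (by linarith) (by linarith) (by linarith)
  have u3 := trap3 h.concU h.intU (p := x2 + (1 + ε) / 2) (q := 1 + ε) (z := s6 + 1)
    (by linarith) (by linarith) le_rfl (by linarith) (by linarith)
  have eT : ∫ x in (0 : ℝ)..(1 + ε), T x = (∫ x in (0 : ℝ)..x2, T x) +
      (∫ x in x2..(x1 + (1 + ε) / 2), T x) + ∫ x in (x1 + (1 + ε) / 2)..(1 + ε), T x := by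
    rw [intervalIntegral.integral_add_adjacent_intervals, 
      intervalIntegral.integral_add_adjacent_intervals]
    all_goals exact sub_int h.intT (by linarith) (by linarith) (by linarith)
  have eU : ∫ x in (0 : ℝ)..(1 + ε), U x = (∫ x in (0 : ℝ)..x1, U x) +
      (∫ x in x1..(x2 + (1 + ε) / 2), U x) + ∫ x in (x2 + (1 + ε) / 2)..(1 + ε), U x := by
    rw [intervalIntegral.integral_add_adjacent_intervals, 
      intervalIntegral.integral_add_adjacent_intervals]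
    all_goals exact sub_int h.intU (by linarith) (by linarith) (by linarith)
  rw [intervalIntegral.integral_add h.intT h.intU, eT, eU]
  have T0 := h.T0
  have Tw := h.Tw
  have U0 := h.U0
  have Uw := h.Uw
  have p1 := mul_le_mul_of_nonneg_left a1 hx2'
  have p2 := mul_le_mul_of_nonneg_left b3
    (show 0 ≤ x1 + (1 + ε) / 2 - x2 by linarith)
  have p3 := mul_le_mul_of_nonneg_left a2 (show 0 ≤ (1 + ε) / 2 - x1 by linarith)
  have q1 := mul_le_mul_of_nonneg_left b1 hx1'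
  have q2 := mul_le_mul_of_nonneg_left a3
    (show 0 ≤ x2 + (1 + ε) / 2 - x1 by linarith)
  have q3 := mul_le_mul_of_nonneg_left b2 (show 0 ≤ (1 + ε) / 2 - x2 by linarith)
  have r1 := mul_le_mul_of_nonneg_left c1 (show 0 ≤ 1 / 2 + s0 - s6 by linarith)
  have r2 := mul_le_mul_of_nonneg_left c2 (show 0 ≤ 1 / 2 + s6 - s0 by linarith)
  have z1 := mul_nonneg hs0' T0
  have z2 := mul_nonneg (show 0 ≤ ε - s0 by linarith) Tw
  have z3 := mul_nonneg hs6' U0
  have z4 := mul_nonneg (show 0 ≤ ε - s6 by linarith) Uw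
  have hfin : Real.sqrt 3 * (1 + ε) / 2 ≤ (∫ x in (0 : ℝ)..x2, T x) +
      (∫ x in x2..(x1 + (1 + ε) / 2), T x) + (∫ x in (x1 + (1 + ε) / 2)..(1 + ε), T x) +
      ((∫ x in (0 : ℝ)..x1, U x) +
      (∫ x in x1..(x2 + (1 + ε) / 2), U x) + ∫ x in (x2 + (1 + ε) / 2)..(1 + ε), U x) := by
    clear eT eU c1 c2 a1 a2 a3 b1 b2 b3 hs0 hs6 hx1 hx2
    linarith
  exact (num_mid h1).trans hfin

theorem area_large (h : Frame ε T U) (h1 : 1 / 2 ≤ ε) :
    Astar ≤ ∫ x in (0 : ℝ)..(1 + ε), (T x + U x) := by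
  obtain ⟨x, hx, hv⟩ := h.vert
  have t1 := trap h.concT h.intT (p := 0) (q := x) le_rfl hx.1 hx.2 h.T0 le_rfl
  have t2 := trap h.concT h.intT (p := x) (q := 1 + ε) hx.1 hx.2 le_rfl le_rfl h.Tw
  have u1 := trap h.concU h.intU (p := 0) (q := x) le_rfl hx.1 hx.2 h.U0 le_rfl
  have u2 := trap h.concU h.intU (p := x) (q := 1 + ε) hx.1 hx.2 le_rfl le_rfl h.Uw
  have eT : ∫ x in (0 : ℝ)..(1 + ε), T x = (∫ x in (0 : ℝ)..x, T x) +
      (∫ x in x..(1 + ε), T x) :=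
    (intervalIntegral.integral_add_adjacent_intervals (sub_int h.intT le_rfl hx.1 hx.2)
      (sub_int h.intT hx.1 hx.2 le_rfl)).symm
  have eU : ∫ x in (0 : ℝ)..(1 + ε), U x = (∫ x in (0 : ℝ)..x, U x) +
      (∫ x in x..(1 + ε), U x) :=
    (intervalIntegral.integral_add_adjacent_intervals (sub_int h.intU le_rfl hx.1 hx.2)
      (sub_int h.intU hx.1 hx.2 le_rfl)).symm
  rw [intervalIntegral.integral_add h.intT h.intU, eT, eU]
  have hA := Astar_ub
  have : (1 + ε) * (1 + ε) ≤ (1 + ε) * (T x + U x) :=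
    mul_le_mul_of_nonneg_left hv (by linarith)
  nlinarith

end Pool.Agent.Helper22TC
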