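import Mathlib
import Pool.Agent.Helper22_TC.Large

set_option autoImplicit false

open MeasureTheory Set

namespace Pool.Agent.Helper22TC

/-- right end of the plateau -/
noncomputable def c1 : ℝ := Real.sqrt 3 / 2

noncomputable def rho (x : ℝ) : ℝ := 3 / 2 - Real.sqrt 3 / 2 * (x / Real.sqrt (1 - x ^ 2))

noncomputable def bet (x : ℝ) : ℝ := x / 2 + Real.sqrt 3 / 2 * Real.sqrt (1 - x ^ 2)

noncomputable def kap (x : ℝ) : ℝ := Real.sqrt 3 / 2 * x + Real.sqrt (1 - x ^ 2) / 2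

lemma c1_sq : c1 ^ 2 = 3 / 4 := by
  unfold c1; nlinarith [sqrt3_sq]

lemma c1_lb : (0.8660254 : ℝ) < c1 := by unfold c1; linarith [sqrt3_lb]

lemma c1_ub : c1 < 0.866025405 := by unfold c1; linarith [sqrt3_ub]

lemma half_le_c1 : (1 : ℝ) / 2 ≤ c1 := by linarith [c1_lb]

lemma c1_le_one : c1 ≤ 1 := by linarith [c1_ub]

section
variable {x : ℝ} 

lemma sq_le (h1 : 1 / 2 ≤ x) (h2 : x ≤ c1) : x ^ 2 ≤ 3 / 4 := by
  rw [← c1_sq]; exact pow_le_pow_left₀ (by linarith) h2 2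

lemma one_sub_sq_pos (h1 : 1 / 2 ≤ x) (h2 : x ≤ c1) : 0 < 1 - x ^ 2 := by
  linarith [sq_le h1 h2]

lemma root_pos (h1 : 1 / 2 ≤ x) (h2 : x ≤ c1) : 0 < Real.sqrt (1 - x ^ 2) :=
  Real.sqrt_pos.2 (one_sub_sq_pos h1 h2)

lemma root_sq (h1 : 1 / 2 ≤ x) (h2 : x ≤ c1) :
    Real.sqrt (1 - x ^ 2) * Real.sqrt (1 - x ^ 2) = 1 - x ^ 2 :=
  Real.mul_self_sqrt (one_sub_sq_pos h1 h2).le

lemma root_half : Real.sqrt (1 - (1 / 2 : ℝ) ^ 2) = Real.sqrt 3 / 2 := by
  rw [Real.sqrt_eq_iff_mul_self_eq (by norm_num) (by positivity)]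
  nlinarith [sqrt3_sq]

lemma root_c1 : Real.sqrt (1 - c1 ^ 2) = 1 / 2 := by
  rw [c1_sq, Real.sqrt_eq_iff_mul_self_eq (by norm_num) (by positivity)]
  norm_num

/-- `√(1-x²) ≥ 1/2` -/
lemma root_ge (h1 : 1 / 2 ≤ x) (h2 : x ≤ c1) : 1 / 2 ≤ Real.sqrt (1 - x ^ 2) := by
  apply Real.le_sqrt_of_sq_le
  linarith [sq_le h1 h2]

lemma root_le (h1 : 1 / 2 ≤ x) (_h2 : x ≤ c1) : Real.sqrt (1 - x ^ 2) ≤ c1 := by
  rw [Real.sqrt_le_left (by linarith [c1_lb]), c1_sq]
  nlinarith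

lemma rho_nonneg (h1 : 1 / 2 ≤ x) (h2 : x ≤ c1) : 0 ≤ rho x := by
  unfold rho
  have hr := root_pos h1 h2
  have hrs := root_sq h1 h2
  have : x / Real.sqrt (1 - x ^ 2) ≤ Real.sqrt 3 := by
    rw [div_le_iff₀ hr]
    apply le_of_sq_le_sq _ (by positivity)
    have := sq_le h1 h2
    calc x ^ 2 ≤ 3 * (1 - x ^ 2) := by linarith
      _ = (Real.sqrt 3 * Real.sqrt (1 - x ^ 2)) ^ 2 := by
        rw [mul_pow, Real.sq_sqrt (by norm_num), Real.sq_sqrt (one_sub_sq_pos h1 h2).le]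
  nlinarith [sqrt3_sq, mul_le_mul_of_nonneg_left this (Real.sqrt_nonneg 3)]

lemma rho_le_one (h1 : 1 / 2 ≤ x) (h2 : x ≤ c1) : rho x ≤ 1 := by
  unfold rho
  have hr := root_pos h1 h2
  have h3 : (0 : ℝ) < Real.sqrt 3 := by positivity
  have : 1 / Real.sqrt 3 ≤ x / Real.sqrt (1 - x ^ 2) := by
    rw [div_le_div_iff₀ h3 hr, one_mul]
    apply le_of_sq_le_sq _ (by positivity)
    have e1 : Real.sqrt (1 - x ^ 2) ^ 2 = 1 - x ^ 2 := Real.sq_sqrt (one_sub_sq_pos h1 h2).le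
    have e2 : Real.sqrt 3 ^ 2 = 3 := Real.sq_sqrt (by norm_num)
    rw [mul_pow, e1, e2]
    nlinarith
  have h4 := mul_le_mul_of_nonneg_left this h3.le
  rw [mul_one_div_cancel h3.ne'] at h4
  linarith

lemma rho_antitone {y : ℝ} (h1 : 1 / 2 ≤ x) (hxy : x ≤ y) (h2 : y ≤ c1) : rho y ≤ rho x := by
  unfold rho
  have hr := root_pos h1 (hxy.trans h2)
  have hr' := root_pos (h1.trans hxy) h2
  have : x / Real.sqrt (1 - x ^ 2) ≤ y / Real.sqrt (1 - y ^ 2) := by
    apply div_le_div₀ (by linarith) hxy hr'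
    apply Real.sqrt_le_sqrt
    nlinarith
  nlinarith [mul_le_mul_of_nonneg_left this (Real.sqrt_nonneg 3)]

lemma hasDerivAt_root (h1 : 1 / 2 ≤ x) (h2 : x ≤ c1) :
    HasDerivAt (fun x => Real.sqrt (1 - x ^ 2)) (-(x / Real.sqrt (1 - x ^ 2))) x := by
  have h := ((hasDerivAt_id x).fun_pow 2).const_sub 1
  have h' := h.sqrt (by simpa using (one_sub_sq_pos h1 h2).ne')
  refine h'.congr_deriv ?_
  have hr := root_pos h1 h2
  simp
  field_simp

lemma hasDerivAt_bet (h1 : 1 / 2 ≤ x) (h2 : x ≤ c1) : HasDerivAt bet (rho x - 1) x := by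
  have h := ((hasDerivAt_id x).div_const 2).add
    ((hasDerivAt_root h1 h2).const_mul (Real.sqrt 3 / 2))
  exact h.congr_deriv (by unfold rho; ring)

lemma hasDerivAt_rhoInt (h1 : 1 / 2 ≤ x) (h2 : x ≤ c1) :
    HasDerivAt (fun x => x + bet x) (rho x) x := by
  have h := (hasDerivAt_id x).add (hasDerivAt_bet h1 h2)
  exact h.congr_deriv (by ring)

lemma arcsin_deriv (h1 : 1 / 2 ≤ x) (h2 : x ≤ c1) :
    HasDerivAt Real.arcsin (1 / Real.sqrt (1 - x ^ 2)) x :=
  Real.hasDerivAt_arcsin (by linarith) (by linarith [c1_ub])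

end

lemma rho_cont : ContinuousOn rho (Icc (1 / 2) c1) := by
  unfold rho
  apply ContinuousOn.sub continuousOn_const
  apply ContinuousOn.mul continuousOn_const
  apply ContinuousOn.div continuousOn_id
  · exact (Real.continuous_sqrt.comp (by fun_prop)).continuousOn
  · intro x hx
    exact (root_pos hx.1 hx.2).ne'

lemma bet_cont : Continuous bet := by
  unfold bet; fun_prop

lemma kap_cont : Continuous kap := by
  unfold kap; fun_prop

lemma bet_half : bet (1 / 2) = 1 := by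
  unfold bet
  rw [root_half]
  nlinarith [sqrt3_sq]

lemma bet_c1 : bet c1 = c1 := by
  unfold bet
  rw [root_c1]
  unfold c1; ring

lemma cont_int {g : ℝ → ℝ} (hg : ContinuousOn g (Icc (1 / 2) c1)) {y z : ℝ} (hy : 1 / 2 ≤ y)
    (hyz : y ≤ z) (hz : z ≤ c1) : IntervalIntegrable g volume y z := by
  apply ContinuousOn.intervalIntegrable
  rw [uIcc_of_le hyz]
  exact hg.mono (Icc_subset_Icc hy hz)

lemma int_rho {y z : ℝ} (hy : 1 / 2 ≤ y) (hyz : y ≤ z) (hz : z ≤ c1) :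
    ∫ x in y..z, rho x = (z + bet z) - (y + bet y) := by
  apply intervalIntegral.integral_eq_sub_of_hasDerivAt
  · intro x hx
    rw [uIcc_of_le hyz] at hx
    exact hasDerivAt_rhoInt (hy.trans hx.1) (hx.2.trans hz)
  · exact cont_int rho_cont hy hyz hz

lemma int_rho_full : ∫ x in (1 / 2 : ℝ)..c1, rho x = Real.sqrt 3 - 3 / 2 := by
  rw [int_rho le_rfl half_le_c1 le_rfl, bet_half, bet_c1]
  unfold c1; ring

/-- first moment -/
lemma int_rho_mul : ∫ x in (1 / 2 : ℝ)..c1, rho x * (c1 - x) =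
    9 / 8 - 3 / 4 * Real.sqrt 3 + Real.sqrt 3 * Real.pi / 24 := by
  have hd : ∀ x ∈ uIcc (1 / 2 : ℝ) c1, HasDerivAt
      (fun x => c1 * (x + bet x) - (3 / 4 * x ^ 2 - Real.sqrt 3 / 4 *
        (Real.arcsin x - x * Real.sqrt (1 - x ^ 2)))) (rho x * (c1 - x)) x := by
    intro x hx
    rw [uIcc_of_le half_le_c1] at hx
    have h1 := hasDerivAt_rhoInt hx.1 hx.2
    have h2 := hasDerivAt_root hx.1 hx.2
    have h3 := arcsin_deriv hx.1 hx.2
    have h4 : HasDerivAt (fun x : ℝ => x ^ 2) (2 * x) x := by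
      simpa using (hasDerivAt_id x).fun_pow 2
    have h5 := (h1.const_mul c1).sub ((h4.const_mul (3 / 4)).sub
      ((h3.sub ((hasDerivAt_id x).mul h2)).const_mul (Real.sqrt 3 / 4)))
    refine h5.congr_deriv ?_
    have hr := root_pos hx.1 hx.2
    have hrs := root_sq hx.1 hx.2
    simp only [id]
    unfold rho
    field_simp
    have : Real.sqrt (1 - x ^ 2) ^ 2 = 1 - x ^ 2 := by rw [sq]; exact hrs
    ring_nf
    rw [show Real.sqrt (1 - x ^ 2) ^ 2 = 1 - x ^ 2 from this]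
    ring
  rw [intervalIntegral.integral_eq_sub_of_hasDerivAt hd]
  · rw [root_c1, root_half, bet_half, bet_c1]
    have e1 : Real.arcsin c1 = Real.pi / 3 := by
      rw [show c1 = Real.sin (Real.pi / 3) by rw [Real.sin_pi_div_three]; rfl]
      apply Real.arcsin_sin <;> linarith [Real.pi_pos]
    have e2 : Real.arcsin (1 / 2) = Real.pi / 6 := by
      rw [← Real.sin_pi_div_six]
      apply Real.arcsin_sin <;> linarith [Real.pi_pos]
    rw [e1, e2]
    unfold c1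
    nlinarith [sqrt3_sq, Real.pi_pos]
  · apply ContinuousOn.intervalIntegrable
    rw [uIcc_of_le half_le_c1]
    exact rho_cont.mul (by fun_prop)

/-- the main constant -/
lemma int_main : ∫ x in (1 / 2 : ℝ)..c1, ((1 - rho x) * (2 * kap x) + rho x) = Astar / 2 := by
  have hd : ∀ x ∈ uIcc (1 / 2 : ℝ) c1, HasDerivAt
      (fun x => (Real.arcsin x / 2 - x * Real.sqrt (1 - x ^ 2)) + (x + bet x))
      ((1 - rho x) * (2 * kap x) + rho x) x := by
    intro x hx
    rw [uIcc_of_le half_le_c1] at hx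
    have h1 := hasDerivAt_rhoInt hx.1 hx.2
    have h2 := hasDerivAt_root hx.1 hx.2
    have h3 := arcsin_deriv hx.1 hx.2
    have h5 := ((h3.div_const 2).sub ((hasDerivAt_id x).mul h2)).add h1
    refine h5.congr_deriv ?_
    have hr := root_pos hx.1 hx.2
    have hrs := root_sq hx.1 hx.2
    have h33 := sqrt3_sq
    simp only [id]
    congr 1
    unfold rho kap
    field_simp
    have h32 : Real.sqrt 3 ^ 2 = 3 := by rw [sq]; exact h33
    have : Real.sqrt (1 - x ^ 2) ^ 2 = 1 - x ^ 2 := by rw [sq]; exact hrs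
    ring_nf
    rw [this, h32]
    ring
  rw [intervalIntegral.integral_eq_sub_of_hasDerivAt hd]
  · rw [root_c1, root_half, bet_half, bet_c1]
    have e1 : Real.arcsin c1 = Real.pi / 3 := by
      rw [show c1 = Real.sin (Real.pi / 3) by rw [Real.sin_pi_div_three]; rfl]
      apply Real.arcsin_sin <;> linarith [Real.pi_pos]
    have e2 : Real.arcsin (1 / 2) = Real.pi / 6 := by
      rw [← Real.sin_pi_div_six]
      apply Real.arcsin_sin <;> linarith [Real.pi_pos]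
    rw [e1, e2]
    unfold c1 Astar
    ring
  · apply ContinuousOn.intervalIntegrable
    rw [uIcc_of_le half_le_c1]
    exact ((continuousOn_const.sub rho_cont).mul (kap_cont.continuousOn.const_smul 2 |>.congr
      (fun x _ => by simp))).add rho_cont

end Pool.Agent.Helper22TC
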