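import Mathlib
import Pool.Agent.Helper22_TC.Rho

set_option autoImplicit false

open MeasureTheory Set

namespace Pool.Agent.Helper22TC

variable {ε s0 y0 s6 y6 : ℝ} {T U : ℝ → ℝ}

structure Core (ε : ℝ) (T U : ℝ → ℝ) (s0 y0 s6 y6 : ℝ) : Prop where
  e0 : 0 ≤ ε
  e1 : ε ≤ 0.1405
  concT : ConcaveOn ℝ (Icc 0 (1 + ε)) T
  concU : ConcaveOn ℝ (Icc 0 (1 + ε)) U
  T0 : 0 ≤ T 0
  Tw : 0 ≤ T (1 + ε)
  U0 : 0 ≤ U 0
  Uw : 0 ≤ U (1 + ε)
  intT : IntervalIntegrable T volume 0 (1 + ε)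
  intU : IntervalIntegrable U volume 0 (1 + ε)
  P0 : 1 ≤ T (1 + ε - c1) + U (1 + ε - c1)
  P1 : 1 ≤ T c1 + U c1
  R : ∀ c ∈ Icc (1 / 2) c1, ∃ p ∈ Icc 0 ε, ∃ q ∈ Icc 0 ε,
    2 * kap c ≤ (T (bet c + p) + U (bet c + p)) + (T (c + q) + U (c + q))
  L : ∀ c ∈ Icc (1 / 2) c1, ∃ p ∈ Icc 0 ε, ∃ q ∈ Icc 0 ε,
    2 * kap c ≤ (T (1 + ε - (bet c + p)) + U (1 + ε - (bet c + p))) +
      (T (1 + ε - (c + q)) + U (1 + ε - (c + q)))
  hs0 : s0 ∈ Icc 0 ε
  hs6 : s6 ∈ Icc 0 ε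
  a1 : y0 ≤ T s0
  a2 : y0 ≤ T (s0 + 1)
  a3 : Real.sqrt 3 / 2 - y0 ≤ U (s0 + 1 / 2)
  b1 : -y6 ≤ U s6
  b2 : -y6 ≤ U (s6 + 1)
  b3 : Real.sqrt 3 / 2 + y6 ≤ T (s6 + 1 / 2)

lemma conc4 {w a b c d : ℝ} (hT : ConcaveOn ℝ (Icc 0 w) T) (ha : 0 ≤ a) (hd : d ≤ w)
    (hab : a ≤ b) (hac : a ≤ c) (hsum : a + d = b + c) : T a + T d ≤ T b + T c := by
  rcases eq_or_lt_of_le (show a ≤ d by linarith) with h | h
  · have hb : b = a := by linarith
    have hc : c = a := by linarith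
    rw [hb, hc, ← h]
  · have h1 := conc_interp hT ha hab (show b ≤ d by linarith) hd
    have h2 := conc_interp hT ha hac (show c ≤ d by linarith) hd
    have h3 : (T a + T d) * (d - a) ≤ (T b + T c) * (d - a) := by
      have e1 : d - b = c - a := by linarith
      have e2 : d - c = b - a := by linarith
      rw [e1] at h1
      rw [e2] at h2
      have e3 : d - a = (b - a) + (c - a) := by linarith
      rw [e3] at h1 h2 ⊢
      nlinarith
    exact le_of_mul_le_mul_right h3 (by linarith)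

lemma bet_ge {c : ℝ} (h1 : 1 / 2 ≤ c) (h2 : c ≤ c1) : c1 ≤ bet c := by
  unfold bet
  have h3 := root_ge h1 h2
  have h4 := root_sq h1 h2
  have h5 := root_pos h1 h2
  have h6 := root_le h1 h2
  set r := Real.sqrt (1 - c ^ 2)
  have h7 := sqrt3_sq
  have h8 := sqrt3_lb
  have h9 : c1 = Real.sqrt 3 / 2 := rfl
  rw [h9] at h2 h6 ⊢
  -- (S/2 - c/2) ≤ S/2 r ⇔ ...
  have h10 : (Real.sqrt 3 / 2 - c / 2) ^ 2 ≤ (Real.sqrt 3 / 2 * r) ^ 2 := by
    have : (Real.sqrt 3 / 2 * r) ^ 2 = 3 / 4 * (1 - c ^ 2) := by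
      rw [mul_pow, div_pow, Real.sq_sqrt (by norm_num), sq r, h4]; norm_num
    rw [this]
    have : (Real.sqrt 3 / 2 - c / 2) ^ 2 = 3 / 4 - Real.sqrt 3 / 2 * c + c ^ 2 / 4 := by
      rw [sub_sq, div_pow, Real.sq_sqrt (by norm_num)]; ring
    rw [this]
    nlinarith
  have h11 := abs_le_of_sq_le_sq' h10 (by positivity)
  linarith [h11.2]

lemma bet_le {c : ℝ} (h1 : 1 / 2 ≤ c) (h2 : c ≤ c1) : bet c ≤ 1 := by
  unfold bet
  have h4 := root_sq h1 h2
  set r := Real.sqrt (1 - c ^ 2)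
  have h7 := sqrt3_sq
  nlinarith [sq_nonneg (c - 1 / 2), sq_nonneg (Real.sqrt 3 * c - r),
    sq_nonneg (r - Real.sqrt 3 / 2)]

lemma kap_le {c : ℝ} (h1 : 1 / 2 ≤ c) (h2 : c ≤ c1) : kap c ≤ 1 := by
  unfold kap
  have h4 := root_sq h1 h2
  set r := Real.sqrt (1 - c ^ 2)
  have h7 := sqrt3_sq
  nlinarith [sq_nonneg (r - 1 / 2), sq_nonneg (c - Real.sqrt 3 / 2)]

/-- angle associated with `c` -/
lemma angle_exists {c : ℝ} (h1 : 1 / 2 ≤ c) (h2 : c ≤ c1) : ∃ φ : ℝ, 0 ≤ φ ∧ φ ≤ Real.pi / 6 ∧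
    Real.cos (Real.pi / 3 - φ) = c ∧ Real.cos φ = bet c ∧
    Real.sin φ + Real.sin (Real.pi / 3 - φ) = kap c := by
  have hc1 : c1 = Real.cos (Real.pi / 6) := by rw [Real.cos_pi_div_six]; rfl
  have hhalf : (1 : ℝ) / 2 = Real.cos (Real.pi / 3) := by rw [Real.cos_pi_div_three]
  have hpi := Real.pi_pos
  have ha : Real.arccos c ≤ Real.pi / 3 := by
    rw [show Real.pi / 3 = Real.arccos (1 / 2) by
      rw [hhalf, Real.arccos_cos] <;> linarith]
    exact Real.arccos_le_arccos h1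
  have hb : Real.pi / 6 ≤ Real.arccos c := by
    rw [show Real.pi / 6 = Real.arccos c1 by
      rw [hc1, Real.arccos_cos] <;> linarith]
    exact Real.arccos_le_arccos h2
  have hcos : Real.cos (Real.arccos c) = c :=
    Real.cos_arccos (by linarith) (by linarith [c1_ub])
  have hsin : Real.sin (Real.arccos c) = Real.sqrt (1 - c ^ 2) := Real.sin_arccos c
  refine ⟨Real.pi / 3 - Real.arccos c, by linarith, by linarith, ?_, ?_, ?_⟩
  · rw [sub_sub_cancel, hcos]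
  · rw [Real.cos_sub, hcos, hsin, Real.cos_pi_div_three, Real.sin_pi_div_three]
    unfold bet; ring
  · rw [sub_sub_cancel, Real.sin_sub, hcos, hsin, Real.cos_pi_div_three, Real.sin_pi_div_three]
    unfold kap; ring

/-- concentration of the offsets -/
lemma pair_conc {w : ℝ} (hT : ConcaveOn ℝ (Icc 0 w) T) (hU : ConcaveOn ℝ (Icc 0 w) U)
    {b c s s' k ε : ℝ} (hc : 0 ≤ c) (hcb : c ≤ b) (hs : s ∈ Icc 0 ε) (hs' : s' ∈ Icc 0 ε)
    (hw : b + ε ≤ w) (h : k ≤ T (s + b) + U (s + c) + (T (s' + c) + U (s' + b))) :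
    ∃ p ∈ Icc 0 ε, ∃ q ∈ Icc 0 ε, k ≤ (T (b + p) + U (b + p)) + (T (c + q) + U (c + q)) := by
  rcases le_total s s' with hss | hss
  · refine ⟨s, hs, s', hs', ?_⟩
    have h1 := conc4 (T := U) hU (a := s + c) (b := b + s) (c := c + s') (d := s' + b)
      (by linarith [hs.1]) (by linarith [hs'.2]) (by linarith) (by linarith) (by ring)
    rw [add_comm s b, add_comm s' c] at h
    linarith
  · refine ⟨s', hs', s, hs, ?_⟩
    have h1 := conc4 (T := T) hT (a := s' + c) (b := b + s') (c := c + s) (d := s + b)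
      (by linarith [hs'.1]) (by linarith [hs.2]) (by linarith) (by linarith) (by ring)
    rw [add_comm s' b, add_comm s c] at h
    linarith

lemma concave_refl {w : ℝ} (hT : ConcaveOn ℝ (Icc 0 w) T) :
    ConcaveOn ℝ (Icc 0 w) (fun x => T (w - x)) := by
  refine ⟨convex_Icc _ _, ?_⟩
  intro x hx y hy a b ha hb hab
  have := hT.2 (x := w - x) ⟨by linarith [hx.2], by linarith [hx.1]⟩ (y := w - y)
    ⟨by linarith [hy.2], by linarith [hy.1]⟩ ha hb hab
  simp only [smul_eq_mul] at this ⊢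
  have e : w - (a * x + b * y) = a * (w - x) + b * (w - y) := by
    have : w = (a + b) * w := by rw [hab, one_mul]
    nlinarith
  rw [e]; exact this

lemma integral_refl {w : ℝ} (T : ℝ → ℝ) : ∫ x in (0 : ℝ)..w, T (w - x) = ∫ x in (0 : ℝ)..w, T x := by
  rw [intervalIntegral.integral_comp_sub_left]; simp

lemma Core.flip (h : Core ε T U s0 y0 s6 y6) : Core ε U T s6 (-y6) s0 (-y0) where
  e0 := h.e0
  e1 := h.e1
  concT := h.concU
  concU := h.concT
  T0 := h.U0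
  Tw := h.Uw
  U0 := h.T0
  Uw := h.Tw
  intT := h.intU
  intU := h.intT
  P0 := by linarith [h.P0]
  P1 := by linarith [h.P1]
  R := by
    intro c hc
    obtain ⟨p, hp, q, hq, h1⟩ := h.R c hc
    exact ⟨p, hp, q, hq, by linarith⟩
  L := by
    intro c hc
    obtain ⟨p, hp, q, hq, h1⟩ := h.L c hc
    exact ⟨p, hp, q, hq, by linarith⟩
  hs0 := h.hs6
  hs6 := h.hs0
  a1 := h.b1
  a2 := h.b2
  a3 := by linarith [h.b3]
  b1 := by linarith [h.a1]
  b2 := by linarith [h.a2]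
  b3 := by linarith [h.a3]

lemma Core.refl (h : Core ε T U s0 y0 s6 y6) :
    Core ε (fun x => T (1 + ε - x)) (fun x => U (1 + ε - x)) (ε - s0) y0 (ε - s6) y6 where
  e0 := h.e0
  e1 := h.e1
  concT := concave_refl h.concT
  concU := concave_refl h.concU
  T0 := by simpa using h.Tw
  Tw := by simpa using h.T0
  U0 := by simpa using h.Uw
  Uw := by simpa using h.U0
  intT := by simpa using (h.intT.comp_sub_left (1 + ε)).symm
  intU := by simpa using (h.intU.comp_sub_left (1 + ε)).symm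
  P0 := by simpa using h.P1
  P1 := by simpa using h.P0
  R := by
    intro c hc
    obtain ⟨p, hp, q, hq, h1⟩ := h.L c hc
    exact ⟨p, hp, q, hq, h1⟩
  L := by
    intro c hc
    obtain ⟨p, hp, q, hq, h1⟩ := h.R c hc
    refine ⟨p, hp, q, hq, ?_⟩
    simpa using h1
  hs0 := ⟨by linarith [h.hs0.2], by linarith [h.hs0.1]⟩
  hs6 := ⟨by linarith [h.hs6.2], by linarith [h.hs6.1]⟩
  a1 := by
    have := h.a2
    rw [show 1 + ε - (ε - s0) = s0 + 1 by ring]; exact this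
  a2 := by
    have := h.a1
    rw [show 1 + ε - (ε - s0 + 1) = s0 by ring]; exact this
  a3 := by
    have := h.a3
    rw [show 1 + ε - (ε - s0 + 1 / 2) = s0 + 1 / 2 by ring]; exact this
  b1 := by
    have := h.b2
    rw [show 1 + ε - (ε - s6) = s6 + 1 by ring]; exact this
  b2 := by
    have := h.b1
    rw [show 1 + ε - (ε - s6 + 1) = s6 by ring]; exact this
  b3 := by
    have := h.b3
    rw [show 1 + ε - (ε - s6 + 1 / 2) = s6 + 1 / 2 by ring]; exact this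

theorem Frame.core (h : Frame ε T U) (he : ε ≤ 0.1405) :
    ∃ s0 y0 s6 y6, Core ε T U s0 y0 s6 y6 := by
  obtain ⟨s0, hs0, y0, a1, a2, a3⟩ := h.right0
  obtain ⟨s6, hs6, y6, b1, b2, b3⟩ := h.right60
  have he0 := h.eps_nonneg
  have hpi := Real.pi_pos
  have hc1l := c1_lb
  have hc1u := c1_ub
  -- plateau
  have hV : ConcaveOn ℝ (Icc 0 (1 + ε)) (fun x => T x + U x) := h.concT.add h.concU
  have hr : ∃ s ∈ Icc 0 ε, 1 ≤ T (s + c1) + U (s + c1) := by
    obtain ⟨s, hs, y, _, _, _, _, h5, h6⟩ := h.right (Real.pi / 6) ⟨by positivity, by linarith⟩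
    refine ⟨s, hs, ?_⟩
    rw [show Real.pi / 3 - Real.pi / 6 = Real.pi / 6 by ring] at h6
    rw [Real.sin_pi_div_six, Real.cos_pi_div_six] at h5 h6
    have e : c1 = Real.sqrt 3 / 2 := rfl
    rw [e]; linarith
  have hl : ∃ s ∈ Icc 0 ε, 1 ≤ T (1 + ε - (s + c1)) + U (1 + ε - (s + c1)) := by
    obtain ⟨s, hs, y, _, _, _, _, h5, h6⟩ := h.left (Real.pi / 6) ⟨by positivity, by linarith⟩
    refine ⟨s, hs, ?_⟩
    rw [show Real.pi / 3 - Real.pi / 6 = Real.pi / 6 by ring] at h6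
    rw [Real.sin_pi_div_six, Real.cos_pi_div_six] at h5 h6
    have e : c1 = Real.sqrt 3 / 2 := rfl
    rw [e]; linarith
  obtain ⟨sr, hsr, hr⟩ := hr
  obtain ⟨sl, hsl, hl⟩ := hl
  have hsr1 := hsr.1
  have hsr2 := hsr.2
  have hsl1 := hsl.1
  have hsl2 := hsl.2
  have plat : ∀ x, 1 + ε - (sl + c1) ≤ x → x ≤ sr + c1 → 1 ≤ T x + U x := by
    intro x hx1 hx2
    have := conc_interp' hV (x := 1 + ε - (sl + c1)) (y := x) (z := sr + c1) (α := 1) (β := 1)
      (by linarith) hx1 hx2 (by linarith) hl hr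
    have hpos : 0 < sr + c1 - (1 + ε - (sl + c1)) := by linarith
    have h2 : 1 * (sr + c1 - (1 + ε - (sl + c1))) ≤
        (T x + U x) * (sr + c1 - (1 + ε - (sl + c1))) := by linarith
    exact le_of_mul_le_mul_right h2 hpos
  refine ⟨s0, y0, s6, y6, ?_⟩
  refine { e0 := he0, e1 := he, concT := h.concT, concU := h.concU, T0 := h.T0, Tw := h.Tw,
           U0 := h.U0, Uw := h.Uw, intT := h.intT, intU := h.intU, P0 := ?_, P1 := ?_, R := ?_,
           L := ?_, hs0 := hs0, hs6 := hs6, a1 := a1, a2 := a2, a3 := a3, b1 := b1, b2 := b2,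
           b3 := b3 }
  · exact plat _ (by linarith) (by linarith)
  · exact plat _ (by linarith) (by linarith)
  · intro c hc
    obtain ⟨φ, hφ0, hφ1, e1, e2, e3⟩ := angle_exists hc.1 hc.2
    obtain ⟨s, hs, y, _, _, _, _, h5, h6⟩ := h.right φ ⟨hφ0, by linarith⟩
    obtain ⟨s', hs', y', _, _, _, _, h5', h6'⟩ :=
      h.right (Real.pi / 3 - φ) ⟨by linarith, by linarith⟩
    rw [sub_sub_cancel] at h6'
    rw [e1] at h6 h5'
    rw [e2] at h5 h6'
    apply pair_conc h.concT h.concU (by linarith [hc.1]) (hc.2.trans (bet_ge hc.1 hc.2)) hs hs'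
      (by linarith [bet_le hc.1 hc.2])
    linarith
  · intro c hc
    obtain ⟨φ, hφ0, hφ1, e1, e2, e3⟩ := angle_exists hc.1 hc.2
    obtain ⟨s, hs, y, _, _, _, _, h5, h6⟩ := h.left φ ⟨hφ0, by linarith⟩
    obtain ⟨s', hs', y', _, _, _, _, h5', h6'⟩ :=
      h.left (Real.pi / 3 - φ) ⟨by linarith, by linarith⟩
    rw [sub_sub_cancel] at h6'
    rw [e1] at h6 h5'
    rw [e2] at h5 h6'
    have := pair_conc (T := fun x => T (1 + ε - x)) (U := fun x => U (1 + ε - x))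
      (k := 2 * kap c) (concave_refl h.concT) (concave_refl h.concU) (by linarith [hc.1])
      (hc.2.trans (bet_ge hc.1 hc.2)) hs hs' (by linarith [bet_le hc.1 hc.2]) (by linarith)
    exact this

end Pool.Agent.Helper22TC
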