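import Mathlib
import Pool.Agent.Helper22_TC.Core

set_option autoImplicit false

open MeasureTheory Set

namespace Pool.Agent.Helper22TC

/-- change of variables `u = β(c)` -/
lemma wing_cov (Φ : ℝ → ℝ) :
    ∫ c in (1 / 2 : ℝ)..c1, (1 - rho c) * Φ (bet c) = ∫ x in c1..1, Φ x := by
  have h := intervalIntegral.integral_comp_mul_deriv_of_deriv_nonpos (a := 1 / 2) (b := c1)
    (f := bet) (f' := fun x => rho x - 1) (g := Φ) bet_cont.continuousOn
    (by
      intro x hx
      rw [min_eq_left half_le_c1, max_eq_right half_le_c1] at hx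
      exact hasDerivAt_bet hx.1.le hx.2.le)
    (by
      intro x hx
      rw [min_eq_left half_le_c1, max_eq_right half_le_c1] at hx
      have := rho_le_one hx.1.le hx.2.le
      linarith)
  rw [bet_half, bet_c1, intervalIntegral.integral_symm c1 1] at h
  rw [← neg_inj, ← h, ← intervalIntegral.integral_neg]
  congr 1
  ext x
  simp only [Function.comp]
  ring

lemma wing_integrable {Φ : ℝ → ℝ} (hΦ : IntervalIntegrable Φ volume c1 1) :
    IntervalIntegrable (fun c => (1 - rho c) * Φ (bet c)) volume (1 / 2) c1 := by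
  have h := intervalIntegral.integrable_comp_mul_deriv_iff_of_deriv_nonpos (a := 1 / 2) (b := c1)
    (f := bet) (f' := fun x => rho x - 1) (g := Φ) bet_cont.continuousOn
    (by
      intro x hx
      rw [min_eq_left half_le_c1, max_eq_right half_le_c1] at hx
      exact hasDerivAt_bet hx.1.le hx.2.le)
    (by
      intro x hx
      rw [min_eq_left half_le_c1, max_eq_right half_le_c1] at hx
      have := rho_le_one hx.1.le hx.2.le
      linarith)
  rw [bet_half, bet_c1] at h
  have h2 := (h.2 hΦ.symm).neg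
  refine h2.congr ?_
  intro x _
  simp only [Function.comp, Pi.neg_apply]
  ring

/-- integrability of `ρ · g` on subintervals -/
lemma ii_sub {g : ℝ → ℝ} (h : IntervalIntegrable g volume (1 / 2) c1) {p q : ℝ} (hp : 1 / 2 ≤ p)
    (hpq : p ≤ q) (hq : q ≤ c1) : IntervalIntegrable g volume p q := by
  apply h.mono_set
  rw [uIcc_of_le hpq, uIcc_of_le half_le_c1]
  exact Icc_subset_Icc hp hq

lemma wing_lower {Φ e : ℝ → ℝ} {p q : ℝ} (hp : 1 / 2 ≤ p) (hpq : p ≤ q) (hq : q ≤ c1)
    (hc : ContinuousOn Φ (Icc (1 / 2) c1)) (hΦ : IntervalIntegrable Φ volume c1 1)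
    (he : ContinuousOn e (Icc p q))
    (hpt : ∀ c ∈ Icc p q, 2 * kap c - e c ≤ Φ c + Φ (bet c)) :
    (∫ c in p..q, ((1 - rho c) * (2 * kap c) + rho c)) +
      ∫ c in p..q, (rho c * (Φ c - 1) - (1 - rho c) * e c) ≤
    (∫ c in p..q, Φ c) + ∫ c in p..q, (1 - rho c) * Φ (bet c) := by
  have hsub : Icc p q ⊆ Icc (1 / 2) c1 := Icc_subset_Icc hp hq
  have hrho : ContinuousOn rho (Icc p q) := rho_cont.mono hsub
  have hΦc : ContinuousOn Φ (Icc p q) := hc.mono hsub
  have i1 : IntervalIntegrable (fun c => (1 - rho c) * (2 * kap c) + rho c) volume p q := by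
    apply ContinuousOn.intervalIntegrable
    rw [uIcc_of_le hpq]
    exact ((continuousOn_const.sub hrho).mul
      (continuousOn_const.mul kap_cont.continuousOn)).add hrho
  have i2 : IntervalIntegrable (fun c => rho c * (Φ c - 1) - (1 - rho c) * e c) volume p q := by
    apply ContinuousOn.intervalIntegrable
    rw [uIcc_of_le hpq]
    exact (hrho.mul (hΦc.sub continuousOn_const)).sub ((continuousOn_const.sub hrho).mul he)
  have i3 : IntervalIntegrable Φ volume p q := by
    apply ContinuousOn.intervalIntegrable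
    rw [uIcc_of_le hpq]; exact hΦc
  have i4 : IntervalIntegrable (fun c => (1 - rho c) * Φ (bet c)) volume p q :=
    ii_sub (wing_integrable hΦ) hp hpq hq
  rw [← intervalIntegral.integral_add i1 i2, ← intervalIntegral.integral_add i3 i4]
  apply intervalIntegral.integral_mono_on hpq (i1.add i2) (i3.add i4)
  intro c hcc
  have h1 := hpt c hcc
  have h2 := rho_le_one (hp.trans hcc.1) (hcc.2.trans hq)
  have h3 := mul_le_mul_of_nonneg_left h1 (sub_nonneg.2 h2)
  nlinarith [h3]

end Pool.Agent.Helper22TC
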