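import Mathlib
import Pool.Agent.Helper22_TC.Wing

set_option autoImplicit false

open MeasureTheory Set

namespace Pool.Agent.Helper22TC

/-- data for the one-function estimate on `[ε,1]` -/
structure Mid (ε h s t xm : ℝ) (V : ℝ → ℝ) : Prop where
  e0 : 0 ≤ ε
  e1 : ε ≤ 0.1405
  conc : ConcaveOn ℝ (Icc 0 (1 + ε)) V
  int : IntervalIntegrable V volume 0 (1 + ε)
  P0 : 1 ≤ V (1 + ε - c1)
  P1 : 1 ≤ V c1
  R : ∀ c ∈ Icc (1 / 2) c1, ∃ p ∈ Icc 0 ε, ∃ q ∈ Icc 0 ε,
    2 * kap c ≤ V (bet c + p) + V (c + q)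
  L : ∀ c ∈ Icc (1 / 2) c1, ∃ p ∈ Icc 0 ε, ∃ q ∈ Icc 0 ε,
    2 * kap c ≤ V (1 + ε - (bet c + p)) + V (1 + ε - (c + q))
  s0 : 0 ≤ s
  st : s ≤ t
  t1 : t ≤ ε
  h0 : 0 ≤ h
  Hs : 1 + h ≤ V (1 / 2 + s)
  Ht : 1 + h ≤ V (1 / 2 + t)
  xm1 : (1 + ε) / 2 ≤ xm
  xm2 : xm ≤ 1 + ε
  mx : ∀ y ∈ Icc 0 (1 + ε), V y ≤ V xm

variable {ε h s t xm : ℝ} {V : ℝ → ℝ}

/-- the slope constant -/
noncomputable def ke (ε : ℝ) : ℝ := ε / (c1 - 1 / 2 - ε)

lemma Mid.den (M : Mid ε h s t xm V) : 0.2255 < c1 - 1 / 2 - ε := by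
  linarith [M.e1, c1_lb]

lemma Mid.ke_nonneg (M : Mid ε h s t xm V) : 0 ≤ ke ε :=
  div_nonneg M.e0 (by linarith [M.den])

lemma Mid.ke_mul (M : Mid ε h s t xm V) : ke ε * (c1 - 1 / 2 - ε) = ε := by
  unfold ke
  have := M.den
  exact div_mul_cancel₀ _ (ne_of_gt (by linarith))

lemma Mid.ke_le (M : Mid ε h s t xm V) : ke ε ≤ 0.6231 := by
  unfold ke
  have := M.den
  rw [div_le_iff₀ (by linarith)]
  linarith [M.e1]

lemma Mid.ke_le' (M : Mid ε h s t xm V) : ke ε * 0.0341 ≤ 0.1513 * ε := by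
  have h1 := M.den
  have h2 := M.ke_nonneg
  have h3 := M.ke_mul
  nlinarith

lemma Mid.mono (M : Mid ε h s t xm V) {x y : ℝ} (hx : 0 ≤ x) (hxy : x ≤ y) (hy : y ≤ xm) :
    V x ≤ V y := by
  have h1 := conc_interp M.conc hx hxy hy M.xm2
  have h2 := M.mx x ⟨hx, by linarith [M.xm2]⟩
  rcases eq_or_lt_of_le (hxy.trans hy) with h | h
  · have : y = x := le_antisymm (by linarith) hxy
    rw [this]
  · have h3 : V x * (xm - x) ≤ V y * (xm - x) := by nlinarith
    exact le_of_mul_le_mul_right h3 (by linarith)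

lemma Mid.anti (M : Mid ε h s t xm V) {x y : ℝ} (hx : xm ≤ x) (hxy : x ≤ y) (hy : y ≤ 1 + ε) :
    V y ≤ V x := by
  have hxm : 0 ≤ xm := by linarith [M.xm1, M.e0]
  have h1 := conc_interp M.conc hxm hx hxy hy
  have h2 := M.mx y ⟨by linarith, hy⟩
  rcases eq_or_lt_of_le (hx.trans hxy) with h | h
  · have : y = x := le_antisymm (by linarith) hxy
    rw [this]
  · have h3 : V y * (y - xm) ≤ V x * (y - xm) := by nlinarith
    exact le_of_mul_le_mul_right h3 (by linarith)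

lemma Mid.plat (M : Mid ε h s t xm V) {x : ℝ} (h1 : 1 + ε - c1 ≤ x) (h2 : x ≤ c1) :
    1 ≤ V x := by
  have e1 := M.e1
  have e0 := M.e0
  have c1l := c1_lb
  have c1u := c1_ub
  have := conc_interp' M.conc (x := 1 + ε - c1) (y := x) (z := c1) (α := 1) (β := 1)
    (by linarith) h1 h2 (by linarith) M.P0 M.P1
  have hpos : 0 < c1 - (1 + ε - c1) := by linarith
  have h3 : 1 * (c1 - (1 + ε - c1)) ≤ V x * (c1 - (1 + ε - c1)) := by linarith
  exact le_of_mul_le_mul_right h3 hpos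

/-- slope trick on the right -/
lemma Mid.slopeR (M : Mid ε h s t xm V) {c q : ℝ} (h1 : 1 / 2 ≤ c) (h2 : c ≤ c1)
    (hq0 : 0 ≤ q) (hq1 : q ≤ ε) : V (c + q) ≤ V c + ke ε * (V c - 1) := by
  have e1 := M.e1
  have e0 := M.e0
  have c1l := c1_lb
  have c1u := c1_ub
  have hden := M.den
  have hk := M.ke_mul
  have hk0 := M.ke_nonneg
  have hp := M.plat (x := c) (by linarith) h2
  have hP0 := M.P0
  have h3 := conc_interp' M.conc (x := 1 + ε - c1) (y := c) (z := c + q) (α := 1) (β := V (c + q))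
    (by linarith) (by linarith) (by linarith) (by linarith) hP0 le_rfl
  -- V(c+q) * (c-c0) ≤ V c (c+q-c0) - q
  have hpos : 0 < c - (1 + ε - c1) := by linarith
  have h4 : V (c + q) * (c - (1 + ε - c1)) ≤ (V c + ke ε * (V c - 1)) * (c - (1 + ε - c1)) := by
    have h5 : q ≤ ke ε * (c - (1 + ε - c1)) := by
      have : ke ε * (c1 - 1 / 2 - ε) ≤ ke ε * (c - (1 + ε - c1)) :=
        mul_le_mul_of_nonneg_left (by linarith) hk0
      linarith
    have h6 : (V c - 1) * q ≤ (V c - 1) * (ke ε * (c - (1 + ε - c1))) :=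
      mul_le_mul_of_nonneg_left h5 (by linarith)
    nlinarith
  exact le_of_mul_le_mul_right h4 hpos

/-- slope trick on the left -/
lemma Mid.slopeL (M : Mid ε h s t xm V) {c q : ℝ} (h1 : 1 / 2 ≤ c) (h2 : c ≤ c1)
    (hq0 : 0 ≤ q) (hq1 : q ≤ ε) :
    V (1 + ε - (c + q)) ≤ V (1 + ε - c) + ke ε * (V (1 + ε - c) - 1) := by
  have e1 := M.e1
  have e0 := M.e0
  have c1l := c1_lb
  have c1u := c1_ub
  have hden := M.den
  have hk := M.ke_mul
  have hk0 := M.ke_nonneg
  have hp := M.plat (x := 1 + ε - c) (by linarith) (by linarith)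
  have hP1 := M.P1
  have h3 := conc_interp' M.conc (x := 1 + ε - (c + q)) (y := 1 + ε - c) (z := c1)
    (α := V (1 + ε - (c + q))) (β := 1)
    (by linarith) (by linarith) (by linarith) (by linarith) le_rfl hP1
  have hpos : 0 < c1 - (1 + ε - c) := by linarith
  have h4 : V (1 + ε - (c + q)) * (c1 - (1 + ε - c)) ≤
      (V (1 + ε - c) + ke ε * (V (1 + ε - c) - 1)) * (c1 - (1 + ε - c)) := by
    have h5 : q ≤ ke ε * (c1 - (1 + ε - c)) := by
      have : ke ε * (c1 - 1 / 2 - ε) ≤ ke ε * (c1 - (1 + ε - c)) :=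
        mul_le_mul_of_nonneg_left (by linarith) hk0
      linarith
    have h6 : (V (1 + ε - c) - 1) * q ≤ (V (1 + ε - c) - 1) * (ke ε * (c1 - (1 + ε - c))) :=
      mul_le_mul_of_nonneg_left h5 (by linarith)
    nlinarith
  exact le_of_mul_le_mul_right h4 hpos

/-- left pairs without error -/
lemma Mid.L0 (M : Mid ε h s t xm V) {c : ℝ} (h1 : 1 / 2 ≤ c) (h2 : c ≤ c1)
    (hx : 1 + ε - c ≤ xm) :
    2 * kap c ≤ V (1 + ε - c) + V (1 + ε - bet c) := by
  have e1 := M.e1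
  have e0 := M.e0
  have c1l := c1_lb
  have c1u := c1_ub
  have x1 := M.xm1
  obtain ⟨p, hp, q, hq, hh⟩ := M.L c ⟨h1, h2⟩
  have hb1 := bet_ge h1 h2
  have hb2 := bet_le h1 h2
  have hp1 := hp.1
  have hp2 := hp.2
  have hq1 := hq.1
  have hq2 := hq.2
  have m1 := M.mono (x := 1 + ε - (bet c + p)) (y := 1 + ε - bet c) (by linarith) (by linarith)
    (by linarith)
  have m2 := M.mono (x := 1 + ε - (c + q)) (y := 1 + ε - c) (by linarith) (by linarith) hx
  linarith

/-- left pairs with error -/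
lemma Mid.L1 (M : Mid ε h s t xm V) {c : ℝ} (h1 : 1 / 2 ≤ c) (h2 : c ≤ c1) :
    2 * kap c - ke ε * (V (1 + ε - c) - 1) ≤ V (1 + ε - c) + V (1 + ε - bet c) := by
  have e1 := M.e1
  have e0 := M.e0
  have c1l := c1_lb
  have c1u := c1_ub
  have x1 := M.xm1
  obtain ⟨p, hp, q, hq, hh⟩ := M.L c ⟨h1, h2⟩
  have hb1 := bet_ge h1 h2
  have hb2 := bet_le h1 h2
  have hp1 := hp.1
  have hp2 := hp.2
  have m1 := M.mono (x := 1 + ε - (bet c + p)) (y := 1 + ε - bet c) (by linarith) (by linarith)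
    (by linarith)
  have m2 := M.slopeL h1 h2 hq.1 hq.2
  linarith

/-- right pairs, with error -/
lemma Mid.R1 (M : Mid ε h s t xm V) {c : ℝ} (h1 : 1 / 2 ≤ c) (h2 : c ≤ c1) :
    2 * kap c - ke ε * (V c - 1) ≤ V c + V (bet c) := by
  have e1 := M.e1
  have e0 := M.e0
  have c1l := c1_lb
  have c1u := c1_ub
  have x1 := M.xm1
  obtain ⟨p, hp, q, hq, hh⟩ := M.R c ⟨h1, h2⟩
  have hb1 := bet_ge h1 h2
  have hb2 := bet_le h1 h2
  have hp1 := hp.1
  have hp2 := hp.2
  have hVc := M.plat (x := c) (by linarith) h2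
  rcases le_total xm (bet c) with hx | hx
  · have m1 := M.anti (x := bet c) (y := bet c + p) hx (by linarith) (by linarith)
    have m2 := M.slopeR h1 h2 hq.1 hq.2
    linarith
  · have hV2 := M.mono (x := c1) (y := bet c) (by linarith) hb1 hx
    have hP1 := M.P1
    have hkap := kap_le h1 h2
    have : 0 ≤ ke ε * (V c - 1) := mul_nonneg M.ke_nonneg (by linarith)
    linarith

/-- right pairs, no error if `c ≥ xm` -/
lemma Mid.R0 (M : Mid ε h s t xm V) {c : ℝ} (h1 : 1 / 2 ≤ c) (h2 : c ≤ c1) (hx : xm ≤ c) :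
    2 * kap c ≤ V c + V (bet c) := by
  have e1 := M.e1
  have e0 := M.e0
  have c1l := c1_lb
  have c1u := c1_ub
  obtain ⟨p, hp, q, hq, hh⟩ := M.R c ⟨h1, h2⟩
  have hb1 := bet_ge h1 h2
  have hb2 := bet_le h1 h2
  have hp1 := hp.1
  have hp2 := hp.2
  have hq1 := hq.1
  have hq2 := hq.2
  have m1 := M.anti (x := bet c) (y := bet c + p) (by linarith) (by linarith) (by linarith)
  have m2 := M.anti (x := c) (y := c + q) (by linarith) (by linarith) (by linarith)
  linarith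

/-- right pairs beyond `z`, with constant error -/
lemma Mid.R2 (M : Mid ε h s t xm V) {z c : ℝ} (hz : 1 / 2 ≤ z) (hzc : z ≤ c) (h2 : c ≤ c1) :
    2 * kap c - ε * (V z - 1) / (z - (1 + ε - c1)) ≤ V c + V (bet c) := by
  have e1 := M.e1
  have e0 := M.e0
  have c1l := c1_lb
  have c1u := c1_ub
  have x1 := M.xm1
  have h1 : 1 / 2 ≤ c := hz.trans hzc
  obtain ⟨p, hp, q, hq, hh⟩ := M.R c ⟨h1, h2⟩
  have hb1 := bet_ge h1 h2
  have hb2 := bet_le h1 h2
  have hp1 := hp.1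
  have hp2 := hp.2
  have hq1 := hq.1
  have hq2 := hq.2
  have hVc := M.plat (x := c) (by linarith) h2
  have hVz := M.plat (x := z) (by linarith) (by linarith)
  have hpz : 0 < z - (1 + ε - c1) := by linarith
  have hP0 := M.P0
  rcases le_total xm (bet c) with hx | hx
  · have m1 := M.anti (x := bet c) (y := bet c + p) hx (by linarith) (by linarith)
    have m3 := conc_interp' M.conc (x := 1 + ε - c1) (y := c) (z := c + q) (α := 1)
      (β := V (c + q)) (by linarith) (by linarith) (by linarith) (by linarith) hP0 le_rfl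
    have m4 := conc_interp' M.conc (x := 1 + ε - c1) (y := z) (z := c) (α := 1)
      (β := V c) (by linarith) (by linarith) (by linarith) (by linarith) hP0 le_rfl
    -- m3 : (c+q-c) + V(c+q) (c - c0) ≤ V c (c+q-c0)
    -- m4 : (c-z) + V c (z-c0) ≤ V z (c-c0)
    set D := z - (1 + ε - c1) with hD
    have hcD : D ≤ c - (1 + ε - c1) := by linarith
    have m5 : (V (c + q) - V c) * (c - (1 + ε - c1)) ≤ q * (V c - 1) := by nlinarith
    have m6 : (V c - 1) * D ≤ (V z - 1) * (c - (1 + ε - c1)) := by nlinarith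
    have m7 : V (c + q) - V c ≤ ε * (V z - 1) / D := by
      rw [le_div_iff₀ hpz]
      have hcpos : 0 < c - (1 + ε - c1) := by linarith
      have : (V (c + q) - V c) * D * (c - (1 + ε - c1)) ≤
          ε * (V z - 1) * (c - (1 + ε - c1)) := by
        calc (V (c + q) - V c) * D * (c - (1 + ε - c1))
            = (V (c + q) - V c) * (c - (1 + ε - c1)) * D := by ring
          _ ≤ q * (V c - 1) * D := mul_le_mul_of_nonneg_right m5 hpz.le
          _ = q * ((V c - 1) * D) := by ring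
          _ ≤ q * ((V z - 1) * (c - (1 + ε - c1))) := mul_le_mul_of_nonneg_left m6 hq1
          _ ≤ ε * ((V z - 1) * (c - (1 + ε - c1))) :=
            mul_le_mul_of_nonneg_right hq2 (mul_nonneg (by linarith) hcpos.le)
          _ = ε * (V z - 1) * (c - (1 + ε - c1)) := by ring
      exact le_of_mul_le_mul_right this hcpos
    linarith
  · have hV2 := M.mono (x := c1) (y := bet c) (by linarith) hb1 hx
    have hP1 := M.P1
    have hkap := kap_le h1 h2
    have : 0 ≤ ε * (V z - 1) / (z - (1 + ε - c1)) :=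
      div_nonneg (mul_nonneg e0 (by linarith)) hpz.le
    linarith

end Pool.Agent.Helper22TC
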