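import Mathlib
import Pool.Agent.Helper22_TC.Mid

set_option autoImplicit false

open MeasureTheory Set

namespace Pool.Agent.Helper22TC

/-- the ramp `max 0 ((c - 1/2 - b)/(c1 - 1/2 - b))` -/
noncomputable def ramp (b c : ℝ) : ℝ := max 0 ((c - 1 / 2 - b) / (c1 - 1 / 2 - b))

lemma ramp_cont (b : ℝ) : Continuous (ramp b) := by
  unfold ramp; fun_prop

lemma ramp_nonneg (b c : ℝ) : 0 ≤ ramp b c := le_max_left _ _

lemma ramp_zero {b c : ℝ} (hb : b < c1 - 1 / 2) (h : c ≤ 1 / 2 + b) : ramp b c = 0 := by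
  unfold ramp
  apply max_eq_left
  apply div_nonpos_of_nonpos_of_nonneg <;> linarith

lemma ramp_pos {b c : ℝ} (hb : b < c1 - 1 / 2) (h : 1 / 2 + b ≤ c) :
    ramp b c = (c - 1 / 2 - b) / (c1 - 1 / 2 - b) := by
  unfold ramp
  apply max_eq_right
  apply div_nonneg <;> linarith

/-- lower bound for `∫ ρ (1 - ramp_b)` -/
lemma int_rho_ramp {b : ℝ} (hb0 : 0 ≤ b) (hb1 : b ≤ 0.1405) :
    0.1439 + 0.325 * b ≤ ∫ c in (1 / 2 : ℝ)..c1, rho c * (1 - ramp b c) := by
  have c1l := c1_lb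
  have c1u := c1_ub
  have hD : 0.2255 < c1 - 1 / 2 - b := by linarith
  -- pointwise identity
  have hpt : ∀ c ∈ Icc (1 / 2) c1, (rho c * (c1 - c) - max 0 (1 / 2 + b - c)) / (c1 - 1 / 2 - b) ≤
      rho c * (1 - ramp b c) := by
    intro c hc
    have hr0 := rho_nonneg hc.1 hc.2
    have hr1 := rho_le_one hc.1 hc.2
    rw [div_le_iff₀ (by linarith)]
    rcases le_total c (1 / 2 + b) with h | h
    · rw [ramp_zero (by linarith) h, max_eq_right (by linarith)]
      nlinarith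
    · rw [ramp_pos (by linarith) h, max_eq_left (by linarith)]
      have : rho c * (1 - (c - 1 / 2 - b) / (c1 - 1 / 2 - b)) * (c1 - 1 / 2 - b) =
          rho c * (c1 - c) := by
        have hne : c1 - 1 / 2 - b ≠ 0 := ne_of_gt (by linarith)
        have e := div_mul_cancel₀ (c - 1 / 2 - b) hne
        calc rho c * (1 - (c - 1 / 2 - b) / (c1 - 1 / 2 - b)) * (c1 - 1 / 2 - b)
            = rho c * ((c1 - 1 / 2 - b) -
              (c - 1 / 2 - b) / (c1 - 1 / 2 - b) * (c1 - 1 / 2 - b)) := by ring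
          _ = rho c * (c1 - c) := by rw [e]; ring
      rw [this]; linarith
  have hmax : Continuous (fun c : ℝ => max 0 (1 / 2 + b - c)) := by fun_prop
  have i0 : IntervalIntegrable (fun c => rho c * (c1 - c)) volume (1 / 2) c1 := by
    apply ContinuousOn.intervalIntegrable
    rw [uIcc_of_le half_le_c1]
    exact rho_cont.mul (by fun_prop)
  have i1 : IntervalIntegrable (fun c => (rho c * (c1 - c) - max 0 (1 / 2 + b - c)) /
      (c1 - 1 / 2 - b)) volume (1 / 2) c1 :=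
    (i0.sub (hmax.intervalIntegrable _ _)).div_const _
  have i2 : IntervalIntegrable (fun c => rho c * (1 - ramp b c)) volume (1 / 2) c1 := by
    apply ContinuousOn.intervalIntegrable
    rw [uIcc_of_le half_le_c1]
    exact rho_cont.mul (continuous_const.sub (ramp_cont b)).continuousOn
  have hm := intervalIntegral.integral_mono_on half_le_c1 i1 i2 hpt
  rw [intervalIntegral.integral_div, intervalIntegral.integral_sub i0
    (hmax.intervalIntegrable _ _), int_rho_mul] at hm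
  have hmx : ∫ c in (1 / 2 : ℝ)..c1, max 0 (1 / 2 + b - c) = b ^ 2 / 2 := by
    rw [← intervalIntegral.integral_add_adjacent_intervals (a := (1 / 2 : ℝ)) (b := 1 / 2 + b)
      (c := c1) (hmax.intervalIntegrable _ _) (hmax.intervalIntegrable _ _)]
    have e1 : ∫ c in (1 / 2 : ℝ)..(1 / 2 + b), max 0 (1 / 2 + b - c) =
        ∫ c in (1 / 2 : ℝ)..(1 / 2 + b), (1 / 2 + b - c) := by
      apply intervalIntegral.integral_congr
      intro c hc
      rw [uIcc_of_le (by linarith)] at hc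
      exact max_eq_right (by linarith [hc.2])
    have e2 : ∫ c in (1 / 2 + b)..c1, max 0 (1 / 2 + b - c) =
        ∫ c in (1 / 2 + b)..c1, (0 : ℝ) := by
      apply intervalIntegral.integral_congr
      intro c hc
      rw [uIcc_of_le (by linarith)] at hc
      exact max_eq_left (by linarith [hc.1])
    rw [e1, e2, intervalIntegral.integral_comp_sub_left (fun x => x) (1 / 2 + b), integral_id]
    simp
  rw [hmx] at hm
  refine le_trans ?_ hm
  rw [le_div_iff₀ (by linarith)]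
  have hpi := Real.pi_gt_d6
  have hc : c1 = Real.sqrt 3 / 2 := rfl
  have h3l := sqrt3_lb
  have h3u := sqrt3_ub
  have hsp : (1.7320508 : ℝ) * 3.141592 ≤ Real.sqrt 3 * Real.pi := by
    apply mul_le_mul h3l.le hpi.le (by norm_num) (by positivity)
  rw [hc]
  nlinarith

/-- `β` bounds giving `∫(1-ρ)` -/
lemma bet_lb1 {y : ℝ} (h1 : 1 / 2 ≤ y) (h2 : y ≤ 0.6405) : 0.98295 ≤ bet y := by
  have c1l := c1_lb
  have c1u := c1_ub
  have hr := root_sq h1 (by linarith)
  have hr0 := root_pos h1 (show y ≤ c1 by linarith)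
  unfold bet
  set r := Real.sqrt (1 - y ^ 2)
  have h3 := sqrt3_sq
  have hs0 : 0 ≤ Real.sqrt 3 := Real.sqrt_nonneg 3
  have h10 : (0.98295 - y / 2) ^ 2 ≤ (Real.sqrt 3 / 2 * r) ^ 2 := by
    have : (Real.sqrt 3 / 2 * r) ^ 2 = 3 / 4 * (1 - y ^ 2) := by
      rw [mul_pow, div_pow, Real.sq_sqrt (by norm_num), sq r, hr]; norm_num
    rw [this]
    nlinarith
  have h11 := abs_le_of_sq_le_sq' h10 (by positivity)
  linarith [h11.2]

lemma bet_z0 : 0.96592 ≤ bet 0.7071 := by
  have c1l := c1_lb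
  have h1 : (0.7071:ℝ) ≤ c1 := by linarith
  have h2 : (0.70711 : ℝ) ≤ Real.sqrt (1 - 0.7071 ^ 2) := by
    apply Real.le_sqrt_of_sq_le; norm_num
  unfold bet
  have h3 := sqrt3_lb
  nlinarith

/-- `ρ` lower bound from a square comparison -/
lemma rho_lb {y r : ℝ} (h1 : 1 / 2 ≤ y) (h2 : y ≤ c1) (hr : r ≤ 3 / 2)
    (h : 3 / 4 * y ^ 2 ≤ (3 / 2 - r) ^ 2 * (1 - y ^ 2)) : r ≤ rho y := by
  unfold rho
  have hr0 := root_pos h1 h2
  have hrs := root_sq h1 h2
  have h3 := sqrt3_sq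
  have : Real.sqrt 3 / 2 * (y / Real.sqrt (1 - y ^ 2)) ≤ 3 / 2 - r := by
    rw [← mul_div_assoc, div_le_iff₀ hr0]
    apply le_of_sq_le_sq _ (mul_nonneg (by linarith) hr0.le)
    rw [mul_pow, mul_pow, div_pow, Real.sq_sqrt (by norm_num), sq (Real.sqrt (1 - y ^ 2)), hrs]
    nlinarith
  linarith

lemma rho_lb1 {y : ℝ} (h1 : 1 / 2 ≤ y) (h2 : y ≤ 0.6405) : 0.77 ≤ rho y := by
  have c1l := c1_lb
  apply rho_lb h1 (by linarith) (by norm_num)
  nlinarith

lemma rho_lb2 {y : ℝ} (h1 : 1 / 2 ≤ y) (h2 : y ≤ 0.7071) : 0.63 ≤ rho y := by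
  have c1l := c1_lb
  apply rho_lb h1 (by linarith) (by norm_num)
  nlinarith

/-- tail: the mean of `ρ` over `[z0, X]` is at least `1/4` -/
lemma tail_rho {X : ℝ} (h1 : 0.7071 ≤ X) (h2 : X ≤ c1) :
    0.25 * (X - 0.7071) ≤ (X + bet X) - (0.7071 + bet 0.7071) := by
  have c1l := c1_lb
  have c1u := c1_ub
  have h0 : (0.7071 : ℝ) ≤ c1 := by linarith
  have rX := root_sq (show 1 / 2 ≤ X by linarith) h2
  have rXge := root_ge (show 1 / 2 ≤ X by linarith) h2
  have rz := root_sq (show (1:ℝ) / 2 ≤ 0.7071 by norm_num) h0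
  have rzge : (0.70711 : ℝ) ≤ Real.sqrt (1 - 0.7071 ^ 2) := by
    apply Real.le_sqrt_of_sq_le; norm_num
  unfold bet
  have hc : c1 = Real.sqrt 3 / 2 := rfl
  rw [← hc]
  set a := Real.sqrt (1 - X ^ 2)
  set b := Real.sqrt (1 - (0.7071 : ℝ) ^ 2)
  have hab : (b - a) * (b + a) = (X - 0.7071) * (X + 0.7071) := by
    nlinarith
  have hsub : 0 ≤ b - a := by
    by_contra hneg
    push Not at hneg
    have : (b - a) * (b + a) < 0 := mul_neg_of_neg_of_pos hneg (by linarith)
    have h5 : 0 ≤ (X - 0.7071) * (X + 0.7071) := mul_nonneg (by linarith) (by linarith)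
    linarith
  have h6 : (b - a) * 1.20711 ≤ (b - a) * (b + a) :=
    mul_le_mul_of_nonneg_left (by linarith) hsub
  have h7 : (X - 0.7071) * (X + 0.7071) ≤ (X - 0.7071) * 1.57313 :=
    mul_le_mul_of_nonneg_left (by linarith) (by linarith)
  have h8 : b - a ≤ 1.3033 * (X - 0.7071) := by linarith
  have h9 : c1 * (b - a) ≤ 0.866025405 * (1.3033 * (X - 0.7071)) := by
    apply mul_le_mul c1u.le h8 hsub (by norm_num)
  linarith

end Pool.Agent.Helper22TC
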