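import Mathlib
import Pool.Agent.Helper22_TC.Test

set_option autoImplicit false

open MeasureTheory Set

namespace Pool.Agent.Helper22TC

lemma int_comp_refl (ε : ℝ) (g : ℝ → ℝ) :
    ∫ c in (1 / 2 : ℝ)..(1 / 2 + ε), g (1 + ε - c) = ∫ c in (1 / 2 : ℝ)..(1 / 2 + ε), g c := by
  rw [intervalIntegral.integral_comp_sub_left (fun x => g x) (1 + ε)]
  congr 1 <;> ring

lemma int_one_sub_rho {y z : ℝ} (hy : 1 / 2 ≤ y) (hyz : y ≤ z) (hz : z ≤ c1) :
    ∫ x in y..z, (1 - rho x) = bet y - bet z := by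
  rw [intervalIntegral.integral_sub intervalIntegrable_const (cont_int rho_cont hy hyz hz),
    int_rho hy hyz hz]
  simp
  ring

theorem J_bound {ε α β k k' z Z lam h : ℝ} {f : ℝ → ℝ} (e0 : 0 ≤ ε) (e1 : ε ≤ 0.1405)
    (hα : α ∈ Icc 0 ε) (hβ : β ∈ Icc 0 ε) (hk : 0 ≤ k) (hk1 : k ≤ 0.6231)
    (hk' : 0 ≤ k') (hk'1 : k' ≤ 0.6231) (hz : 1 / 2 + ε ≤ z) (hz1 : z ≤ 0.7071) (hZ : z ≤ Z)
    (hZ1 : Z ≤ c1) (hlam : lam ∈ Icc 0 1) (hh : 0 ≤ h)
    (hf : ContinuousOn f (Icc (1 + ε - c1) c1))
    (hf1 : ∀ y ∈ Icc (1 / 2) Z, h * (1 - ramp α (1 + ε - y) - lam * ramp β y) ≤ f y)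
    (hf2 : ∀ y ∈ Icc (1 / 2) c1,
      h * (1 - ramp α y - lam * ramp β (1 + ε - y)) ≤ f (1 + ε - y)) :
    h * ((∫ c in (1 / 2 : ℝ)..Z, rho c * (1 - lam * ramp β c)) +
      (∫ c in (1 / 2 : ℝ)..c1, rho c * (1 - ramp α c)) - ε - k * (1 - bet z) -
      k' * (1 - bet (1 / 2 + ε))) ≤
    (∫ c in (1 / 2 : ℝ)..z, (rho c * f c - (1 - rho c) * (k * f c))) +
    (∫ c in z..Z, (rho c * f c)) +
    (∫ c in (1 / 2 : ℝ)..(1 / 2 + ε), (rho c * f (1 + ε - c) -
      (1 - rho c) * (k' * f (1 + ε - c)))) +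
    (∫ c in (1 / 2 + ε)..c1, (rho c * f (1 + ε - c))) -
    ∫ c in (1 / 2 : ℝ)..(1 / 2 + ε), f c := by
  have c1l := c1_lb
  have c1u := c1_ub
  have hα1 := hα.1
  have hα2 := hα.2
  have hβ1 := hβ.1
  have hβ2 := hβ.2
  have hl1 := hlam.1
  have hl2 := hlam.2
  -- continuity on subintervals
  have cf : ∀ {p q : ℝ}, 1 / 2 ≤ p → q ≤ c1 → ContinuousOn f (Icc p q) := by
    intro p q hp hq
    exact hf.mono (Icc_subset_Icc (by linarith) hq)
  have cf' : ∀ {p q : ℝ}, 1 / 2 ≤ p → q ≤ c1 → ContinuousOn (fun c => f (1 + ε - c))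
      (Icc p q) := by
    intro p q hp hq
    apply hf.comp (by fun_prop)
    intro x hx
    exact ⟨by linarith [hx.2], by linarith [hx.1]⟩
  have cr : ∀ {p q : ℝ}, 1 / 2 ≤ p → q ≤ c1 → ContinuousOn rho (Icc p q) := by
    intro p q hp hq
    exact rho_cont.mono (Icc_subset_Icc hp hq)
  have ca : Continuous (ramp α) := ramp_cont α
  have cb : Continuous (ramp β) := ramp_cont β
  have ca' : Continuous (fun c => ramp α (1 + ε - c)) := ca.comp (by fun_prop)
  have cb' : Continuous (fun c => ramp β (1 + ε - c)) := cb.comp (by fun_prop)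
  have II : ∀ {g : ℝ → ℝ} {p q : ℝ}, p ≤ q → ContinuousOn g (Icc p q) →
      IntervalIntegrable g volume p q := by
    intro g p q hpq hg
    apply ContinuousOn.intervalIntegrable
    rw [uIcc_of_le hpq]; exact hg
  -- abbreviations
  have hm1 : (1:ℝ) / 2 ≤ 1 / 2 + ε := by linarith
  have hm2 : 1 / 2 + ε ≤ c1 := by linarith
  -- X1 + Y1 - F
  have key1 : h * ((∫ c in (1 / 2 : ℝ)..(1 / 2 + ε), rho c * (1 - lam * ramp β c)) +
      (∫ c in (1 / 2 : ℝ)..(1 / 2 + ε), rho c * (1 - ramp α c)) - ε -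
      (k + k') * (∫ c in (1 / 2 : ℝ)..(1 / 2 + ε), (1 - rho c))) ≤
    (∫ c in (1 / 2 : ℝ)..(1 / 2 + ε), (rho c * f c - (1 - rho c) * (k * f c))) +
    (∫ c in (1 / 2 : ℝ)..(1 / 2 + ε), (rho c * f (1 + ε - c) -
      (1 - rho c) * (k' * f (1 + ε - c)))) -
    ∫ c in (1 / 2 : ℝ)..(1 / 2 + ε), f c := by
    have r0 := cr (le_refl (1 / 2)) hm2
    have f0 := cf (le_refl (1 / 2)) hm2
    have f0' := cf' (le_refl (1 / 2)) hm2
    have i1 : IntervalIntegrable (fun c => rho c * (1 - lam * ramp β c)) volume (1 / 2) (1 / 2 + ε) := II hm1 (r0.mul (continuousOn_const.sub (continuousOn_const.mul cb.continuousOn)))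
    have i2 : IntervalIntegrable (fun c => rho c * (1 - ramp α c)) volume (1 / 2) (1 / 2 + ε) := II hm1 (r0.mul (continuousOn_const.sub ca.continuousOn))
    have i3 : IntervalIntegrable (fun c => 1 - rho c) volume (1 / 2) (1 / 2 + ε) := II hm1 (continuousOn_const.sub r0)
    have i4 : IntervalIntegrable (fun c => rho c * f c -
        (1 - rho c) * (k * f c)) volume (1 / 2) (1 / 2 + ε) := II hm1 ((r0.mul f0).sub ((continuousOn_const.sub r0).mul
      (continuousOn_const.mul f0)))
    have i5 : IntervalIntegrable (fun c => rho c * f (1 + ε - c) -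
        (1 - rho c) * (k' * f (1 + ε - c))) volume (1 / 2) (1 / 2 + ε) := II hm1 ((r0.mul f0').sub ((continuousOn_const.sub r0).mul
      (continuousOn_const.mul f0')))
    have i6 := II hm1 f0
    have i6' := II hm1 f0'
    have j1 : IntervalIntegrable (ramp α) volume (1 / 2) (1 / 2 + ε) := ca.intervalIntegrable _ _
    have j1' : IntervalIntegrable (fun c => ramp α (1 + ε - c)) volume (1 / 2) (1 / 2 + ε) :=
      ca'.intervalIntegrable _ _
    have j2 : IntervalIntegrable (ramp β) volume (1 / 2) (1 / 2 + ε) := cb.intervalIntegrable _ _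
    have j2' : IntervalIntegrable (fun c => ramp β (1 + ε - c)) volume (1 / 2) (1 / 2 + ε) :=
      cb'.intervalIntegrable _ _
    have eF : ∫ c in (1 / 2 : ℝ)..(1 / 2 + ε), f c =
        ∫ c in (1 / 2 : ℝ)..(1 / 2 + ε), (f c + f (1 + ε - c)) / 2 := by
      rw [intervalIntegral.integral_div, intervalIntegral.integral_add i6 i6',
        int_comp_refl ε f]
      ring
    have eA : ∫ c in (1 / 2 : ℝ)..(1 / 2 + ε), (ramp α c - ramp α (1 + ε - c)) = 0 := by
      rw [intervalIntegral.integral_sub j1 j1', int_comp_refl ε (ramp α), sub_self]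
    have eB : ∫ c in (1 / 2 : ℝ)..(1 / 2 + ε), (ramp β c - ramp β (1 + ε - c)) = 0 := by
      rw [intervalIntegral.integral_sub j2 j2', int_comp_refl ε (ramp β), sub_self]
    rw [eF, ← intervalIntegral.integral_add i4 i5,
      ← intervalIntegral.integral_sub (i4.add i5) ((i6.add i6').div_const 2)]
    have i7 : IntervalIntegrable (fun c => (rho c * (1 - lam * ramp β c) +
        rho c * (1 - ramp α c) - 1 - (k + k') * (1 - rho c))) volume (1 / 2) (1 / 2 + ε) :=
      ((i1.add i2).sub intervalIntegrable_const).sub (i3.const_mul (k + k'))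
    have e7 : ∫ c in (1 / 2 : ℝ)..(1 / 2 + ε), (rho c * (1 - lam * ramp β c) +
        rho c * (1 - ramp α c) - 1 - (k + k') * (1 - rho c)) =
        (∫ c in (1 / 2 : ℝ)..(1 / 2 + ε), rho c * (1 - lam * ramp β c)) +
      (∫ c in (1 / 2 : ℝ)..(1 / 2 + ε), rho c * (1 - ramp α c)) - ε -
      (k + k') * (∫ c in (1 / 2 : ℝ)..(1 / 2 + ε), (1 - rho c)) := by
      rw [intervalIntegral.integral_sub ((i1.add i2).sub intervalIntegrable_const)
        (i3.const_mul (k + k')), intervalIntegral.integral_sub (i1.add i2)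
        intervalIntegrable_const, intervalIntegral.integral_add i1 i2,
        intervalIntegral.integral_const_mul]
      simp
    have j3 := j1.sub j1'
    have j4 := j2.sub j2'
    have e8 : ∫ c in (1 / 2 : ℝ)..(1 / 2 + ε), (h * (rho c * (1 - lam * ramp β c) +
        rho c * (1 - ramp α c) - 1 - (k + k') * (1 - rho c)) +
        h / 2 * (ramp α c - ramp α (1 + ε - c)) +
        h * lam / 2 * (ramp β c - ramp β (1 + ε - c))) =
        h * ∫ c in (1 / 2 : ℝ)..(1 / 2 + ε), (rho c * (1 - lam * ramp β c) +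
        rho c * (1 - ramp α c) - 1 - (k + k') * (1 - rho c)) := by
      rw [intervalIntegral.integral_add ((i7.const_mul h).add (j3.const_mul (h / 2)))
        (j4.const_mul (h * lam / 2)), intervalIntegral.integral_add (i7.const_mul h)
        (j3.const_mul (h / 2)), intervalIntegral.integral_const_mul,
        intervalIntegral.integral_const_mul, intervalIntegral.integral_const_mul, eA, eB]
      ring
    rw [← e7, ← e8]
    apply intervalIntegral.integral_mono_on hm1
      (((i7.const_mul h).add (j3.const_mul (h / 2))).add (j4.const_mul (h * lam / 2)))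
      ((i4.add i5).sub ((i6.add i6').div_const 2))
    intro c hc
    have hc1 := hc.1
    have hc2 := hc.2
    have r1 := rho_lb1 hc1 (by linarith : c ≤ 0.6405)
    have r2 := rho_le_one hc1 (by linarith : c ≤ c1)
    have g1 := hf1 c ⟨hc1, by linarith⟩
    have g2 := hf2 c ⟨hc1, by linarith⟩
    have w1 : 0 ≤ rho c - 1 / 2 - k * (1 - rho c) := by nlinarith
    have w2 : 0 ≤ rho c - 1 / 2 - k' * (1 - rho c) := by nlinarith
    have m1 := mul_le_mul_of_nonneg_left g1 w1
    have m2 := mul_le_mul_of_nonneg_left g2 w2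
    have na := ramp_nonneg α c
    have nb := ramp_nonneg β c
    have na' := ramp_nonneg α (1 + ε - c)
    have nb' := ramp_nonneg β (1 + ε - c)
    set a := ramp α c
    set b := ramp β c
    set a' := ramp α (1 + ε - c)
    set b' := ramp β (1 + ε - c)
    set r := rho c
    set F := f c
    set F' := f (1 + ε - c)
    have t1 : 0 ≤ h * ((1 - r) * a') := mul_nonneg hh (mul_nonneg (by linarith) na')
    have t2 : 0 ≤ h * (lam * ((1 - r) * b')) :=
      mul_nonneg hh (mul_nonneg hl1 (mul_nonneg (by linarith) nb'))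
    have t3 : 0 ≤ h * (k * ((1 - r) * (a' + lam * b))) :=
      mul_nonneg hh (mul_nonneg hk (mul_nonneg (by linarith)
        (add_nonneg na' (mul_nonneg hl1 nb))))
    have t4 : 0 ≤ h * (k' * ((1 - r) * (a + lam * b'))) :=
      mul_nonneg hh (mul_nonneg hk' (mul_nonneg (by linarith)
        (add_nonneg na (mul_nonneg hl1 nb'))))
    linarith
  -- X2
  have key2 : h * ((∫ c in (1 / 2 + ε)..z, rho c * (1 - lam * ramp β c)) -
      k * (∫ c in (1 / 2 + ε)..z, (1 - rho c))) ≤
      ∫ c in (1 / 2 + ε)..z, (rho c * f c - (1 - rho c) * (k * f c)) := by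
    have r0 := cr hm1 (hZ.trans hZ1)
    have f0 := cf hm1 (hZ.trans hZ1)
    have i1 : IntervalIntegrable (fun c => rho c * (1 - lam * ramp β c)) volume (1 / 2 + ε) z := II hz (r0.mul (continuousOn_const.sub (continuousOn_const.mul cb.continuousOn)))
    have i3 : IntervalIntegrable (fun c => 1 - rho c) volume (1 / 2 + ε) z := II hz (continuousOn_const.sub r0)
    have i4 : IntervalIntegrable (fun c => rho c * f c -
        (1 - rho c) * (k * f c)) volume (1 / 2 + ε) z := II hz ((r0.mul f0).sub ((continuousOn_const.sub r0).mul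
      (continuousOn_const.mul f0)))
    rw [← intervalIntegral.integral_const_mul k, ← intervalIntegral.integral_sub i1
      (i3.const_mul k), ← intervalIntegral.integral_const_mul]
    apply intervalIntegral.integral_mono_on hz ((i1.sub (i3.const_mul k)).const_mul h) i4
    intro c hc
    have hc1 := hc.1
    have hc2 := hc.2
    have r1 := rho_lb2 (by linarith : 1 / 2 ≤ c) (by linarith : c ≤ 0.7071)
    have r2 := rho_le_one (by linarith : 1 / 2 ≤ c) (by linarith : c ≤ c1)
    have g1 := hf1 c ⟨by linarith, by linarith⟩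
    have w1 : 0 ≤ rho c - k * (1 - rho c) := by nlinarith
    rw [ramp_zero (b := α) (c := 1 + ε - c) (by linarith) (by linarith)] at g1
    have m1 := mul_le_mul_of_nonneg_left g1 w1
    have nb := ramp_nonneg β c
    have t3 : 0 ≤ h * (k * ((1 - rho c) * (lam * ramp β c))) :=
      mul_nonneg hh (mul_nonneg hk (mul_nonneg (by linarith) (mul_nonneg hl1 nb)))
    linarith
  -- X3
  have key3 : h * (∫ c in z..Z, rho c * (1 - lam * ramp β c)) ≤ ∫ c in z..Z, rho c * f c := by
    have hz' : (1:ℝ) / 2 ≤ z := by linarith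
    have r0 := cr hz' hZ1
    have f0 := cf hz' hZ1
    have i1 : IntervalIntegrable (fun c => rho c * (1 - lam * ramp β c)) volume z Z := II hZ (r0.mul (continuousOn_const.sub (continuousOn_const.mul cb.continuousOn)))
    have i4 : IntervalIntegrable (fun c => rho c * f c) volume z Z := II hZ (r0.mul f0)
    rw [← intervalIntegral.integral_const_mul]
    apply intervalIntegral.integral_mono_on hZ (i1.const_mul h) i4
    intro c hc
    have hc1 := hc.1
    have hc2 := hc.2
    have r1 := rho_nonneg (by linarith : 1 / 2 ≤ c) (by linarith : c ≤ c1)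
    have g1 := hf1 c ⟨by linarith, by linarith⟩
    rw [ramp_zero (b := α) (c := 1 + ε - c) (by linarith) (by linarith)] at g1
    have m1 := mul_le_mul_of_nonneg_left g1 r1
    linarith
  -- Y2
  have key4 : h * (∫ c in (1 / 2 + ε)..c1, rho c * (1 - ramp α c)) ≤
      ∫ c in (1 / 2 + ε)..c1, rho c * f (1 + ε - c) := by
    have r0 := cr hm1 le_rfl
    have f0 := cf' hm1 le_rfl
    have i1 : IntervalIntegrable (fun c => rho c * (1 - ramp α c)) volume (1 / 2 + ε) c1 := II hm2 (r0.mul (continuousOn_const.sub ca.continuousOn))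
    have i4 : IntervalIntegrable (fun c => rho c * f (1 + ε - c)) volume (1 / 2 + ε) c1 := II hm2 (r0.mul f0)
    rw [← intervalIntegral.integral_const_mul]
    apply intervalIntegral.integral_mono_on hm2 (i1.const_mul h) i4
    intro c hc
    have hc1 := hc.1
    have hc2 := hc.2
    have r1 := rho_nonneg (by linarith : 1 / 2 ≤ c) (by linarith : c ≤ c1)
    have g1 := hf2 c ⟨by linarith, by linarith⟩
    rw [ramp_zero (b := β) (c := 1 + ε - c) (by linarith) (by linarith)] at g1
    have m1 := mul_le_mul_of_nonneg_left g1 r1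
    linarith
  -- assemble
  have s1 : ∫ c in (1 / 2 : ℝ)..Z, rho c * (1 - lam * ramp β c) =
      (∫ c in (1 / 2 : ℝ)..(1 / 2 + ε), rho c * (1 - lam * ramp β c)) +
      (∫ c in (1 / 2 + ε)..z, rho c * (1 - lam * ramp β c)) +
      ∫ c in z..Z, rho c * (1 - lam * ramp β c) := by
    have i1 : IntervalIntegrable (fun c => rho c * (1 - lam * ramp β c)) volume (1 / 2) (1 / 2 + ε) := II hm1 ((cr le_rfl hm2).mul (continuousOn_const.sub
      (continuousOn_const.mul cb.continuousOn)))
    have i2 : IntervalIntegrable (fun c => rho c * (1 - lam * ramp β c)) volume (1 / 2 + ε) z := II hz ((cr hm1 (hZ.trans hZ1)).mul (continuousOn_const.sub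
      (continuousOn_const.mul cb.continuousOn)))
    have i3 : IntervalIntegrable (fun c => rho c * (1 - lam * ramp β c)) volume z Z := II hZ ((cr (hm1.trans hz) hZ1).mul (continuousOn_const.sub
      (continuousOn_const.mul cb.continuousOn)))
    rw [intervalIntegral.integral_add_adjacent_intervals i1 i2,
      intervalIntegral.integral_add_adjacent_intervals (i1.trans i2) i3]
  have s2 : ∫ c in (1 / 2 : ℝ)..c1, rho c * (1 - ramp α c) =
      (∫ c in (1 / 2 : ℝ)..(1 / 2 + ε), rho c * (1 - ramp α c)) +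
      ∫ c in (1 / 2 + ε)..c1, rho c * (1 - ramp α c) := by
    have i1 : IntervalIntegrable (fun c => rho c * (1 - ramp α c)) volume (1 / 2) (1 / 2 + ε) := II hm1 ((cr le_rfl hm2).mul (continuousOn_const.sub ca.continuousOn))
    have i2 : IntervalIntegrable (fun c => rho c * (1 - ramp α c)) volume (1 / 2 + ε) c1 := II hm2 ((cr hm1 le_rfl).mul (continuousOn_const.sub ca.continuousOn))
    rw [intervalIntegral.integral_add_adjacent_intervals i1 i2]
  have s3 : ∫ c in (1 / 2 : ℝ)..z, (rho c * f c - (1 - rho c) * (k * f c)) =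
      (∫ c in (1 / 2 : ℝ)..(1 / 2 + ε), (rho c * f c - (1 - rho c) * (k * f c))) +
      ∫ c in (1 / 2 + ε)..z, (rho c * f c - (1 - rho c) * (k * f c)) := by
    have r0 := cr (le_refl (1 / 2)) hm2
    have f0 := cf (le_refl (1 / 2)) hm2
    have r1 := cr hm1 (hZ.trans hZ1)
    have f1 := cf hm1 (hZ.trans hZ1)
    have i1 : IntervalIntegrable (fun c => rho c * f c -
        (1 - rho c) * (k * f c)) volume (1 / 2) (1 / 2 + ε) := II hm1 ((r0.mul f0).sub ((continuousOn_const.sub r0).mul
      (continuousOn_const.mul f0)))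
    have i2 : IntervalIntegrable (fun c => rho c * f c -
        (1 - rho c) * (k * f c)) volume (1 / 2 + ε) z := II hz ((r1.mul f1).sub ((continuousOn_const.sub r1).mul
      (continuousOn_const.mul f1)))
    rw [intervalIntegral.integral_add_adjacent_intervals i1 i2]
  have n1 := int_one_sub_rho (le_refl (1 / 2)) hm1 hm2
  have n2 := int_one_sub_rho hm1 hz (hZ.trans hZ1)
  rw [bet_half] at n1
  rw [n1] at key1
  rw [n2] at key2
  rw [s1, s2, s3]
  nlinarith [key1, key2, key3, key4]

end Pool.Agent.Helper22TC
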