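import Mathlib
import Pool.Agent.Helper22_TC.Jfun

set_option autoImplicit false

open MeasureTheory Set

namespace Pool.Agent.Helper22TC

lemma main_split {z X : ℝ} (hz : 1 / 2 ≤ z) (hX : z ≤ X) (hX1 : X ≤ c1) :
    (∫ c in (1 / 2 : ℝ)..z, ((1 - rho c) * (2 * kap c) + rho c)) +
    (∫ c in z..X, ((1 - rho c) * (2 * kap c) + rho c)) +
    (∫ c in X..c1, ((1 - rho c) * (2 * kap c) + rho c)) = Astar / 2 := by
  have hc : ContinuousOn (fun c => (1 - rho c) * (2 * kap c) + rho c) (Icc (1 / 2) c1) :=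
    ((continuousOn_const.sub rho_cont).mul
      (continuousOn_const.mul kap_cont.continuousOn)).add rho_cont
  have i1 := cont_int hc le_rfl hz (hX.trans hX1)
  have i2 := cont_int hc hz hX hX1
  have i3 := cont_int hc (hz.trans hX) hX1 le_rfl
  rw [intervalIntegral.integral_add_adjacent_intervals i1 i2,
    intervalIntegral.integral_add_adjacent_intervals (i1.trans i2) i3, int_main]

theorem wing3 {Φ f1 f2 f3 : ℝ → ℝ} {z X : ℝ} (hz : 1 / 2 ≤ z) (hX : z ≤ X) (hX1 : X ≤ c1)
    (hc : ContinuousOn Φ (Icc (1 / 2) c1)) (hΦ : IntervalIntegrable Φ volume (1 / 2) 1)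
    (he1 : ContinuousOn f1 (Icc (1 / 2) z)) (he2 : ContinuousOn f2 (Icc z X))
    (he3 : ContinuousOn f3 (Icc X c1))
    (p1 : ∀ c ∈ Icc (1 / 2) z, 2 * kap c - f1 c ≤ Φ c + Φ (bet c))
    (p2 : ∀ c ∈ Icc z X, 2 * kap c - f2 c ≤ Φ c + Φ (bet c))
    (p3 : ∀ c ∈ Icc X c1, 2 * kap c - f3 c ≤ Φ c + Φ (bet c)) :
    Astar / 2 + (∫ c in (1 / 2 : ℝ)..z, (rho c * (Φ c - 1) - (1 - rho c) * f1 c)) +
      (∫ c in z..X, (rho c * (Φ c - 1) - (1 - rho c) * f2 c)) +
      (∫ c in X..c1, (rho c * (Φ c - 1) - (1 - rho c) * f3 c)) ≤ ∫ x in (1 / 2 : ℝ)..1, Φ x := by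
  have hΦ1 : IntervalIntegrable Φ volume (1 / 2) c1 := cont_int hc le_rfl half_le_c1 le_rfl
  have hΦ2 : IntervalIntegrable Φ volume c1 1 := by
    apply hΦ.mono_set
    rw [uIcc_of_le c1_le_one, uIcc_of_le (by norm_num)]
    exact Icc_subset_Icc half_le_c1 le_rfl
  have w1 := wing_lower le_rfl hz (hX.trans hX1) hc hΦ2 he1 p1
  have w2 := wing_lower hz hX hX1 hc hΦ2 he2 p2
  have w3 := wing_lower (hz.trans hX) hX1 le_rfl hc hΦ2 he3 p3
  have ms := main_split hz hX hX1
  rw [← intervalIntegral.integral_add_adjacent_intervals hΦ1 hΦ2, ← wing_cov Φ]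
  have j := wing_integrable hΦ2
  have s1 : ∫ c in (1 / 2 : ℝ)..c1, Φ c = (∫ c in (1 / 2 : ℝ)..z, Φ c) + (∫ c in z..X, Φ c) +
      ∫ c in X..c1, Φ c := by
    rw [intervalIntegral.integral_add_adjacent_intervals (ii_sub hΦ1 le_rfl hz (hX.trans hX1))
      (ii_sub hΦ1 hz hX hX1), intervalIntegral.integral_add_adjacent_intervals
      (ii_sub hΦ1 le_rfl (hz.trans hX) hX1) (ii_sub hΦ1 (hz.trans hX) hX1 le_rfl)]
  have s2 : ∫ c in (1 / 2 : ℝ)..c1, (1 - rho c) * Φ (bet c) =
      (∫ c in (1 / 2 : ℝ)..z, (1 - rho c) * Φ (bet c)) +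
      (∫ c in z..X, (1 - rho c) * Φ (bet c)) + ∫ c in X..c1, (1 - rho c) * Φ (bet c) := by
    rw [intervalIntegral.integral_add_adjacent_intervals (ii_sub j le_rfl hz (hX.trans hX1))
      (ii_sub j hz hX hX1), intervalIntegral.integral_add_adjacent_intervals
      (ii_sub j le_rfl (hz.trans hX) hX1) (ii_sub j (hz.trans hX) hX1 le_rfl)]
  rw [s1, s2]
  linarith

variable {ε h s t xm : ℝ} {V : ℝ → ℝ}

lemma Mid.cont (M : Mid ε h s t xm V) : ContinuousOn V (Icc (1 + ε - c1) c1) := by
  have h1 := M.conc.continuousOn_interior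
  rw [interior_Icc] at h1
  apply h1.mono
  intro x hx
  have := c1_ub
  exact ⟨by linarith [hx.1, M.e0], by linarith [hx.2, M.e0]⟩

/-- minorant of `V - 1` between the left anchor and `1/2+s` -/
lemma Mid.test1 (M : Mid ε h s t xm V) {y : ℝ} (h1 : 1 + ε - c1 ≤ y) (h2 : y ≤ 1 / 2 + s) :
    h * (1 - ramp (ε - s) (1 + ε - y)) ≤ V y - 1 := by
  have e1 := M.e1
  have e0 := M.e0
  have c1l := c1_lb
  have c1u := c1_ub
  have hs := M.s0
  have hst := M.st
  have ht := M.t1
  have hP0 := M.P0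
  have hHs := M.Hs
  rw [ramp_pos (by linarith) (by linarith)]
  have h3 := conc_interp' M.conc (x := 1 + ε - c1) (y := y) (z := 1 / 2 + s) (α := 1)
    (β := 1 + h) (by linarith) h1 h2 (by linarith) hP0 hHs
  have hD : 0 < c1 - 1 / 2 - (ε - s) := by linarith
  have e := div_mul_cancel₀ (1 + ε - y - 1 / 2 - (ε - s)) hD.ne'
  have h4 : h * (1 - (1 + ε - y - 1 / 2 - (ε - s)) / (c1 - 1 / 2 - (ε - s))) *
      (c1 - 1 / 2 - (ε - s)) ≤ (V y - 1) * (c1 - 1 / 2 - (ε - s)) := by
    calc h * (1 - (1 + ε - y - 1 / 2 - (ε - s)) / (c1 - 1 / 2 - (ε - s))) *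
          (c1 - 1 / 2 - (ε - s))
        = h * ((c1 - 1 / 2 - (ε - s)) - (1 + ε - y - 1 / 2 - (ε - s)) /
          (c1 - 1 / 2 - (ε - s)) * (c1 - 1 / 2 - (ε - s))) := by ring
      _ = h * (y - (1 + ε - c1)) := by rw [e]; ring
      _ ≤ (V y - 1) * (c1 - 1 / 2 - (ε - s)) := by nlinarith
  exact le_of_mul_le_mul_right h4 hD

/-- minorant of `V - 1` between `1/2+t` and the right anchor -/
lemma Mid.test2 (M : Mid ε h s t xm V) {y : ℝ} (h1 : 1 / 2 + t ≤ y) (h2 : y ≤ c1) :
    h * (1 - ramp t y) ≤ V y - 1 := by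
  have e1 := M.e1
  have e0 := M.e0
  have c1l := c1_lb
  have c1u := c1_ub
  have hs := M.s0
  have hst := M.st
  have ht := M.t1
  have hP1 := M.P1
  have hHt := M.Ht
  rw [ramp_pos (by linarith) h1]
  have h3 := conc_interp' M.conc (x := 1 / 2 + t) (y := y) (z := c1) (α := 1 + h)
    (β := 1) (by linarith) h1 h2 (by linarith) hHt hP1
  have hD : 0 < c1 - 1 / 2 - t := by linarith
  have e := div_mul_cancel₀ (y - 1 / 2 - t) hD.ne'
  have h4 : h * (1 - (y - 1 / 2 - t) / (c1 - 1 / 2 - t)) * (c1 - 1 / 2 - t) ≤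
      (V y - 1) * (c1 - 1 / 2 - t) := by
    calc h * (1 - (y - 1 / 2 - t) / (c1 - 1 / 2 - t)) * (c1 - 1 / 2 - t)
        = h * ((c1 - 1 / 2 - t) - (y - 1 / 2 - t) / (c1 - 1 / 2 - t) * (c1 - 1 / 2 - t)) := by
          ring
      _ = h * (c1 - y) := by rw [e]; ring
      _ ≤ (V y - 1) * (c1 - 1 / 2 - t) := by nlinarith
  exact le_of_mul_le_mul_right h4 hD

lemma Mid.testA (M : Mid ε h s t xm V) {y : ℝ} (h1 : 1 + ε - c1 ≤ y) (h2 : y ≤ c1) :
    h * (1 - ramp (ε - s) (1 + ε - y) - 1 * ramp t y) ≤ V y - 1 := by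
  have e1 := M.e1
  have e0 := M.e0
  have c1l := c1_lb
  have c1u := c1_ub
  have hs := M.s0
  have hst := M.st
  have ht := M.t1
  rcases le_total y (1 / 2 + s) with h3 | h3
  · rw [ramp_zero (b := t) (c := y) (by linarith) (by linarith)]
    have := M.test1 h1 h3
    linarith
  · rcases le_total y (1 / 2 + t) with h4 | h4
    · rw [ramp_zero (b := t) (c := y) (by linarith) (by linarith),
        ramp_zero (b := ε - s) (c := 1 + ε - y) (by linarith) (by linarith)]
      have h5 : 1 + h ≤ V y := by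
        rcases eq_or_lt_of_le (h3.trans h4) with h6 | h6
        · have : y = 1 / 2 + s := le_antisymm (by linarith) h3
          rw [this]; exact M.Hs
        · have := conc_interp' M.conc (x := 1 / 2 + s) (y := y) (z := 1 / 2 + t)
            (by linarith) h3 h4 (by linarith) M.Hs M.Ht
          have h7 : (1 + h) * (1 / 2 + t - (1 / 2 + s)) ≤ V y * (1 / 2 + t - (1 / 2 + s)) := by
            linarith
          exact le_of_mul_le_mul_right h7 (by linarith)
      linarith
    · rw [ramp_zero (b := ε - s) (c := 1 + ε - y) (by linarith) (by linarith)]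
      have := M.test2 h4 h2
      linarith

lemma Mid.testB (M : Mid ε h s t xm V) (hx : 0.7071 ≤ xm) {y : ℝ} (h1 : 1 + ε - c1 ≤ y)
    (h2 : y ≤ 0.7071) :
    h * (1 - ramp (ε - s) (1 + ε - y) - 0 * ramp t y) ≤ V y - 1 := by
  have e1 := M.e1
  have e0 := M.e0
  have c1l := c1_lb
  have c1u := c1_ub
  have hs := M.s0
  have hst := M.st
  have ht := M.t1
  rcases le_total y (1 / 2 + s) with h3 | h3
  · have := M.test1 h1 h3
    linarith
  · rw [ramp_zero (b := ε - s) (c := 1 + ε - y) (by linarith) (by linarith)]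
    have h5 := M.mono (x := 1 / 2 + s) (y := y) (by linarith) h3 (by linarith)
    have h6 := M.Hs
    linarith

lemma Mid.intsub (M : Mid ε h s t xm V) {p q : ℝ} (hp : 0 ≤ p) (hpq : p ≤ q) (hq : q ≤ 1 + ε) :
    IntervalIntegrable V volume p q := sub_int M.int hp hpq hq

/-- splitting of the middle integral -/
lemma Mid.split (M : Mid ε h s t xm V) :
    (∫ x in ε..1, V x) = (∫ x in (1 / 2 : ℝ)..1, V x) +
      (∫ x in (1 / 2 : ℝ)..1, V (1 + ε - x)) - ε - 
      ∫ x in (1 / 2 : ℝ)..(1 / 2 + ε), (V x - 1) := by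
  have e1 := M.e1
  have e0 := M.e0
  have i1 := M.intsub (p := ε) (q := 1 / 2) e0 (by linarith) (by linarith)
  have i2 := M.intsub (p := 1 / 2) (q := 1 / 2 + ε) (by linarith) (by linarith) (by linarith)
  have i3 := M.intsub (p := 1 / 2 + ε) (q := 1) (by linarith) (by linarith) (by linarith)
  have s1 : ∫ x in (1 / 2 : ℝ)..1, V x = (∫ x in (1 / 2 : ℝ)..(1 / 2 + ε), V x) +
      ∫ x in (1 / 2 + ε)..1, V x :=
    (intervalIntegral.integral_add_adjacent_intervals i2 i3).symm
  have s2 : ∫ x in (1 / 2 : ℝ)..1, V (1 + ε - x) = (∫ x in ε..(1 / 2), V x) +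
      ∫ x in (1 / 2 : ℝ)..(1 / 2 + ε), V x := by
    rw [intervalIntegral.integral_comp_sub_left (fun x => V x) (1 + ε),
      intervalIntegral.integral_add_adjacent_intervals i1 i2]
    congr 1 <;> ring
  have s3 : ∫ x in ε..1, V x = (∫ x in ε..(1 / 2), V x) +
      (∫ x in (1 / 2 : ℝ)..(1 / 2 + ε), V x) + ∫ x in (1 / 2 + ε)..1, V x := by
    rw [intervalIntegral.integral_add_adjacent_intervals i1 i2,
      intervalIntegral.integral_add_adjacent_intervals (i1.trans i2) i3]
  have s4 : ∫ x in (1 / 2 : ℝ)..(1 / 2 + ε), (V x - 1) =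
      (∫ x in (1 / 2 : ℝ)..(1 / 2 + ε), V x) - ε := by
    rw [intervalIntegral.integral_sub i2 intervalIntegrable_const]
    simp
  rw [s1, s2, s3, s4]
  ring

lemma Mid.contL (M : Mid ε h s t xm V) :
    ContinuousOn (fun x => V (1 + ε - x)) (Icc (1 / 2) c1) := by
  apply M.cont.comp (by fun_prop)
  intro x hx
  have := c1_lb
  exact ⟨by linarith [hx.2], by linarith [hx.1, M.e1]⟩

lemma Mid.contR (M : Mid ε h s t xm V) : ContinuousOn V (Icc (1 / 2) c1) := by
  apply M.cont.mono
  have := c1_lb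
  exact Icc_subset_Icc (by linarith [M.e1]) le_rfl

lemma Mid.intL (M : Mid ε h s t xm V) :
    IntervalIntegrable (fun x => V (1 + ε - x)) volume (1 / 2) 1 := by
  have e1 := M.e1
  have e0 := M.e0
  have h1 := (M.intsub (p := ε) (q := 1 / 2 + ε) e0 (by linarith) (by linarith)).comp_sub_left
    (1 + ε)
  have : IntervalIntegrable (fun x => V (1 + ε - x)) volume 1 (1 / 2) := by
    convert h1 using 1 <;> ring
  exact this.symm

/-- left wing -/
lemma Mid.left (M : Mid ε h s t xm V) {k' : ℝ} (hk : k' = ke ε ∨ (k' = 0 ∧ 1 / 2 + ε ≤ xm)) :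
    Astar / 2 + (∫ c in (1 / 2 : ℝ)..(1 / 2 + ε), (rho c * (V (1 + ε - c) - 1) -
      (1 - rho c) * (k' * (V (1 + ε - c) - 1)))) +
      (∫ c in (1 / 2 + ε)..c1, (rho c * (V (1 + ε - c) - 1))) ≤
      ∫ x in (1 / 2 : ℝ)..1, V (1 + ε - x) := by
  have e1 := M.e1
  have e0 := M.e0
  have c1l := c1_lb
  have c1u := c1_ub
  have x1 := M.xm1
  have hL := M.contL
  have key := wing3 (Φ := fun x => V (1 + ε - x)) (f1 := fun c => k' * (V (1 + ε - c) - 1))
    (f2 := fun _ => 0) (f3 := fun _ => 0) (z := 1 / 2 + ε) (X := c1) (by linarith) (by linarith)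
    le_rfl hL M.intL
    (continuousOn_const.mul ((hL.mono (Icc_subset_Icc le_rfl (by linarith))).sub
      continuousOn_const)) continuousOn_const continuousOn_const
    (by
      intro c hc
      rcases hk with h1 | ⟨h1, h2⟩
      · simp only [h1]
        exact M.L1 hc.1 (by linarith [hc.2])
      · simp only [h1, zero_mul, sub_zero]
        exact M.L0 hc.1 (by linarith [hc.2]) (by linarith [hc.1]))
    (by
      intro c hc
      simp only [sub_zero]
      exact M.L0 (by linarith [hc.1]) hc.2 (by linarith [hc.1]))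
    (by
      intro c hc
      simp only [sub_zero]
      exact M.L0 (by linarith [hc.1]) hc.2 (by linarith [hc.1]))
  simp only [mul_zero, sub_zero, intervalIntegral.integral_same, add_zero] at key
  exact key

/-- right wing, case A -/
lemma Mid.rightA (M : Mid ε h s t xm V) {z : ℝ} (hz : 1 / 2 ≤ z) (hz1 : z ≤ c1) (hx : xm ≤ z) :
    Astar / 2 + (∫ c in (1 / 2 : ℝ)..z, (rho c * (V c - 1) -
      (1 - rho c) * (ke ε * (V c - 1)))) +
      (∫ c in z..c1, (rho c * (V c - 1))) ≤
      ∫ x in (1 / 2 : ℝ)..1, V x := by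
  have e1 := M.e1
  have e0 := M.e0
  have c1l := c1_lb
  have c1u := c1_ub
  have x1 := M.xm1
  have hR := M.contR
  have key := wing3 (Φ := V) (f1 := fun c => ke ε * (V c - 1))
    (f2 := fun _ => 0) (f3 := fun _ => 0) (z := z) (X := c1) hz hz1
    le_rfl hR (M.intsub (by norm_num) (by norm_num) (by linarith))
    (continuousOn_const.mul ((hR.mono (Icc_subset_Icc le_rfl (by linarith))).sub
      continuousOn_const)) continuousOn_const continuousOn_const
    (by
      intro c hc
      exact M.R1 hc.1 (by linarith [hc.2]))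
    (by
      intro c hc
      simp only [sub_zero]
      exact M.R0 (by linarith [hc.1]) hc.2 (by linarith [hc.1]))
    (by
      intro c hc
      simp only [sub_zero]
      exact M.R0 (by linarith [hc.1]) hc.2 (by linarith [hc.1]))
  simp only [mul_zero, sub_zero, intervalIntegral.integral_same, add_zero] at key
  exact key

/-- right wing, case B -/
lemma Mid.rightB (M : Mid ε h s t xm V) (hx : 0.7071 ≤ xm) :
    Astar / 2 + (∫ c in (1 / 2 : ℝ)..0.7071, (rho c * (V c - 1) -
      (1 - rho c) * (ke ε * (V c - 1)))) ≤ ∫ x in (1 / 2 : ℝ)..1, V x := by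
  have e1 := M.e1
  have e0 := M.e0
  have c1l := c1_lb
  have c1u := c1_ub
  have x1 := M.xm1
  have hR := M.contR
  set X := min xm c1 with hXdef
  have hX0 : 0.7071 ≤ X := le_min hx (by linarith)
  have hX1 : X ≤ c1 := min_le_right _ _
  have hXx : X ≤ xm := min_le_left _ _
  set C := ε * (V 0.7071 - 1) / (0.7071 - (1 + ε - c1)) with hC
  have key := wing3 (Φ := V) (f1 := fun c => ke ε * (V c - 1))
    (f2 := fun _ => C) (f3 := fun _ => 0) (z := 0.7071) (X := X) (by norm_num) hX0
    hX1 hR (M.intsub (by norm_num) (by norm_num) (by linarith))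
    (continuousOn_const.mul ((hR.mono (Icc_subset_Icc le_rfl (by linarith))).sub
      continuousOn_const)) continuousOn_const continuousOn_const
    (by
      intro c hc
      exact M.R1 hc.1 (by linarith [hc.2]))
    (by
      intro c hc
      exact M.R2 (by norm_num) hc.1 (hc.2.trans hX1))
    (by
      intro c hc
      simp only [sub_zero]
      have hc1 : (1:ℝ) / 2 ≤ c := by linarith [hc.1]
      rcases le_total xm c1 with h1 | h1
      · have : X = xm := min_eq_left h1
        exact M.R0 hc1 hc.2 (by linarith [hc.1])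
      · have h3 : X = c1 := min_eq_right h1
        have h2 : c = c1 := le_antisymm hc.2 (by linarith [hc.1])
        rw [h2, bet_c1]
        have := M.P1
        have := kap_le half_le_c1 le_rfl
        linarith)
  have hv : 0 ≤ V 0.7071 - 1 := by linarith [M.plat (x := 0.7071) (by linarith) (by linarith)]
  have hD : 0.4326 < 0.7071 - (1 + ε - c1) := by linarith
  have hCle : C ≤ 0.3249 * (V 0.7071 - 1) := by
    rw [hC, div_le_iff₀ (by linarith)]
    nlinarith
  have hC0 : 0 ≤ C := div_nonneg (mul_nonneg e0 hv) (by linarith)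
  have ir : IntervalIntegrable rho volume 0.7071 X :=
    cont_int rho_cont (by norm_num) hX0 hX1
  have I2 : 0 ≤ ∫ c in (0.7071 : ℝ)..X, (rho c * (V c - 1) - (1 - rho c) * C) := by
    have h1 : 0 ≤ ∫ c in (0.7071 : ℝ)..X, ((V 0.7071 - 1) * rho c - C * (1 - rho c)) := by
      rw [intervalIntegral.integral_sub (ir.const_mul _)
        ((intervalIntegrable_const.sub ir).const_mul _), intervalIntegral.integral_const_mul,
        intervalIntegral.integral_const_mul, int_one_sub_rho (by norm_num) hX0 hX1,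
        int_rho (by norm_num) hX0 hX1]
      have ht := tail_rho hX0 hX1
      have h2 : bet 0.7071 - bet X ≤ 0.75 * (X - 0.7071) := by linarith
      have hX' : 0 ≤ X - 0.7071 := by linarith
      have h3 : (V 0.7071 - 1) * (0.25 * (X - 0.7071)) ≤
          (V 0.7071 - 1) * (X + bet X - (0.7071 + bet 0.7071)) :=
        mul_le_mul_of_nonneg_left ht hv
      have h4 : C * (bet 0.7071 - bet X) ≤ C * (0.75 * (X - 0.7071)) :=
        mul_le_mul_of_nonneg_left h2 hC0
      have h5 : C * (0.75 * (X - 0.7071)) ≤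
          0.3249 * (V 0.7071 - 1) * (0.75 * (X - 0.7071)) :=
        mul_le_mul_of_nonneg_right hCle (by linarith)
      have h6 := mul_nonneg hv hX'
      nlinarith
    refine h1.trans ?_
    apply intervalIntegral.integral_mono_on hX0
      ((ir.const_mul _).sub ((intervalIntegrable_const.sub ir).const_mul _))
    · apply cont_int _ (by norm_num) hX0 hX1
      exact (rho_cont.mul (hR.sub continuousOn_const)).sub
        ((continuousOn_const.sub rho_cont).mul continuousOn_const)
    · intro c hc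
      have hr := rho_nonneg (x := c) (by linarith [hc.1]) (hc.2.trans hX1)
      have hm := M.mono (x := 0.7071) (y := c) (by norm_num) hc.1 (hc.2.trans hXx)
      nlinarith [mul_le_mul_of_nonneg_left hm hr]
  have I3 : 0 ≤ ∫ c in X..c1, (rho c * (V c - 1) - (1 - rho c) * 0) := by
    apply intervalIntegral.integral_nonneg hX1
    intro c hc
    have hr := rho_nonneg (x := c) (by linarith [hc.1]) hc.2
    have hp := M.plat (x := c) (by linarith [hc.1]) hc.2
    have := mul_nonneg hr (sub_nonneg.2 hp)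
    linarith
  linarith

/-- middle estimate, case A -/
theorem Mid.mainA (M : Mid ε h s t xm V) (hx : xm ≤ 0.7071) :
    Astar - ε + h * (0.2878 + 0.325 * (ε - s + t) - 1.1513 * ε) ≤ ∫ x in ε..1, V x := by
  have e1 := M.e1
  have e0 := M.e0
  have c1l := c1_lb
  have c1u := c1_ub
  have hs := M.s0
  have hst := M.st
  have ht := M.t1
  have hh := M.h0
  have hk0 := M.ke_nonneg
  have hk1 := M.ke_le
  have hk2 := M.ke_le'
  rw [M.split]
  have ra := int_rho_ramp (b := ε - s) (by linarith) (by linarith)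
  have rb := int_rho_ramp (b := t) (by linarith) (by linarith)
  have hbm := bet_lb1 (y := 1 / 2 + ε) (by linarith) (by linarith)
  have hfc : ContinuousOn (fun x => V x - 1) (Icc (1 + ε - c1) c1) :=
    M.cont.sub continuousOn_const
  have hJ : ∀ {k' z : ℝ}, 0 ≤ k' → k' ≤ 0.6231 → 1 / 2 + ε ≤ z → z ≤ 0.7071 → _ :=
    fun {k' z} a1 a2 a3 a4 => J_bound (ε := ε) (α := ε - s) (β := t) (k := ke ε) (k' := k')
      (z := z) (Z := c1) (lam := 1) (h := h) (f := fun x => V x - 1) e0 e1
      ⟨by linarith, by linarith⟩ ⟨by linarith, by linarith⟩ hk0 hk1 a1 a2 a3 a4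
      (by linarith) le_rfl ⟨by norm_num, le_rfl⟩ hh hfc
      (fun y hy => M.testA (by linarith [hy.1]) hy.2)
      (fun y hy => by
        have := M.testA (y := 1 + ε - y) (by linarith [hy.2]) (by linarith [hy.1])
        rw [sub_sub_cancel] at this
        exact this)
  rcases le_total xm (1 / 2 + ε) with hx1 | hx1
  · have J := hJ hk0 hk1 le_rfl (by linarith : 1 / 2 + ε ≤ 0.7071)
    have L := M.left (k' := ke ε) (Or.inl rfl)
    have R := M.rightA (z := 1 / 2 + ε) (by linarith) (by linarith) hx1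
    have hc : h * (0.2878 + 0.325 * (ε - s + t) - 1.1513 * ε) ≤
      h * ((∫ c in (1 / 2 : ℝ)..c1, rho c * (1 - 1 * ramp t c)) +
      (∫ c in (1 / 2 : ℝ)..c1, rho c * (1 - ramp (ε - s) c)) - ε - ke ε * (1 - bet (1 / 2 + ε)) -
      ke ε * (1 - bet (1 / 2 + ε))) := by
      apply mul_le_mul_of_nonneg_left _ hh
      simp only [one_mul]
      nlinarith
    linarith
  · have J := hJ le_rfl (by norm_num) (by linarith : 1 / 2 + ε ≤ (0.7071 : ℝ)) le_rfl
    have L := M.left (k' := 0) (Or.inr ⟨rfl, hx1⟩)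
    have R := M.rightA (z := 0.7071) (by norm_num) (by linarith) hx
    have hb := bet_z0
    have hc : h * (0.2878 + 0.325 * (ε - s + t) - 1.1513 * ε) ≤
      h * ((∫ c in (1 / 2 : ℝ)..c1, rho c * (1 - 1 * ramp t c)) +
      (∫ c in (1 / 2 : ℝ)..c1, rho c * (1 - ramp (ε - s) c)) - ε - ke ε * (1 - bet 0.7071) -
      0 * (1 - bet (1 / 2 + ε))) := by
      apply mul_le_mul_of_nonneg_left _ hh
      simp only [one_mul]
      nlinarith
    linarith

/-- middle estimate, case B -/
theorem Mid.mainB (M : Mid ε h s t xm V) (hx : 0.7071 ≤ xm) :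
    Astar - ε + h * (0.1439 + 0.325 * (ε - s) + 0.17302 - 1.1513 * ε) ≤ ∫ x in ε..1, V x := by
  have e1 := M.e1
  have e0 := M.e0
  have c1l := c1_lb
  have c1u := c1_ub
  have hs := M.s0
  have hst := M.st
  have ht := M.t1
  have hh := M.h0
  have hk0 := M.ke_nonneg
  have hk1 := M.ke_le
  have hk2 := M.ke_le'
  rw [M.split]
  have ra := int_rho_ramp (b := ε - s) (by linarith) (by linarith)
  have hfc : ContinuousOn (fun x => V x - 1) (Icc (1 + ε - c1) c1) :=
    M.cont.sub continuousOn_const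
  have J := J_bound (ε := ε) (α := ε - s) (β := t) (k := ke ε) (k' := 0)
      (z := 0.7071) (Z := 0.7071) (lam := 0) (h := h) (f := fun x => V x - 1) e0 e1
      ⟨by linarith, by linarith⟩ ⟨by linarith, by linarith⟩ hk0 hk1 le_rfl (by norm_num)
      (by linarith) le_rfl le_rfl (by linarith) ⟨le_rfl, by norm_num⟩ hh hfc
      (fun y hy => M.testB hx (by linarith [hy.1]) hy.2)
      (fun y hy => by
        have := M.testB hx (y := 1 + ε - y) (by linarith [hy.2]) (by linarith [hy.1])
        rw [sub_sub_cancel] at this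
        exact this)
  have L := M.left (k' := 0) (Or.inr ⟨rfl, by linarith⟩)
  have R := M.rightB hx
  have hb := bet_z0
  have hrho : ∫ c in (1 / 2 : ℝ)..0.7071, rho c * (1 - 0 * ramp t c) =
      (0.7071 + bet 0.7071) - (1 / 2 + 1) := by
    simp only [zero_mul, sub_zero, mul_one]
    rw [int_rho le_rfl (by norm_num) (by linarith), bet_half]
  rw [hrho] at J
  have hc : h * (0.1439 + 0.325 * (ε - s) + 0.17302 - 1.1513 * ε) ≤
      h * ((0.7071 + bet 0.7071) - (1 / 2 + 1) +
      (∫ c in (1 / 2 : ℝ)..c1, rho c * (1 - ramp (ε - s) c)) - ε - ke ε * (1 - bet 0.7071) -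
      0 * (1 - bet (1 / 2 + ε))) := by
    apply mul_le_mul_of_nonneg_left _ hh
    nlinarith
  rw [intervalIntegral.integral_same] at J
  linarith

end Pool.Agent.Helper22TC
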