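import Mathlib
import Pool.Agent.Helper22_TC.MidMain

set_option autoImplicit false

open MeasureTheory Set

namespace Pool.Agent.Helper22TC

variable {ε s0 y0 s6 y6 : ℝ} {T U : ℝ → ℝ}

/-- `K1` -/
noncomputable def K1 (ε d : ℝ) : ℝ := 1.5 * ε * (1 + 2 * d) - (ε ^ 2 + d ^ 2)

lemma K1_nonneg {ε d : ℝ} (e0 : 0 ≤ ε) (e1 : ε ≤ 0.1405) (d0 : 0 ≤ d) (d1 : d ≤ ε) :
    0 ≤ K1 ε d := by
  unfold K1
  nlinarith [mul_nonneg e0 d0]

lemma div_lb {t a b c : ℝ} (hb : 0 < b) (h : a * b ≤ t * b + c) : a ≤ t + c / b := by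
  have : (a - t) * b ≤ c := by linarith
  have := (le_div_iff₀ hb).2 this
  linarith

/-- the bound for the two end strips -/
theorem Core.edge (C : Core ε T U s0 y0 s6 y6) (hs : s0 ≤ s6) :
    ∃ h : ℝ, 0 ≤ h ∧ 1 + h ≤ T (1 / 2 + s0) + U (1 / 2 + s0) ∧
      1 + h ≤ T (1 / 2 + s6) + U (1 / 2 + s6) ∧
      1.5 * ε * c1 - (1 - c1) * K1 ε (s6 - s0) - h * K1 ε (s6 - s0) ≤
        (∫ x in (0 : ℝ)..ε, (T x + U x)) + ∫ x in (1 : ℝ)..(1 + ε), (T x + U x) := by
  have e1 := C.e1
  have e0 := C.e0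
  have c1l := c1_lb
  have c1u := c1_ub
  have hs0 := C.hs0.1
  have hs0' := C.hs0.2
  have hs6 := C.hs6.1
  have hs6' := C.hs6.2
  have hc : Real.sqrt 3 / 2 = c1 := rfl
  have a1 := C.a1
  have a2 := C.a2
  have a3 := C.a3
  have b1 := C.b1
  have b2 := C.b2
  have b3 := C.b3
  rw [hc] at a3 b3
  have hd0 : 0 ≤ s6 - s0 := by linarith
  have hd1 : s6 - s0 ≤ ε := by linarith
  have hK := K1_nonneg e0 e1 hd0 hd1
  set d := s6 - s0 with hd
  obtain ⟨θ, hθ0, hθ1⟩ : ∃ θ : ℝ, 0 ≤ θ ∧ (θ = 0 ∨ θ * (1 + 2 * d) = c1 - (y0 - y6)) ∧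
      c1 - (y0 - y6) ≤ θ * (1 + 2 * d) := by
    rcases le_total 0 (c1 - (y0 - y6)) with h | h
    · refine ⟨(c1 - (y0 - y6)) / (1 + 2 * d), div_nonneg h (by linarith), Or.inr ?_, ?_⟩
      · exact div_mul_cancel₀ _ (ne_of_gt (by linarith))
      · exact (div_mul_cancel₀ _ (ne_of_gt (by linarith))).ge
    · exact ⟨0, le_rfl, Or.inl rfl, by linarith⟩
  obtain ⟨hθ1, hθ2⟩ := hθ1
  have hm2 : θ * (1 - 2 * d) ≤ θ * (1 + 2 * d) := by nlinarith
  -- values of `T`
  have Tgen : ∀ x, s0 ≤ x → x ≤ s6 + 1 / 2 → y0 + 2 * θ * (x - s0) ≤ T x := by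
    intro x hx1 hx2
    rcases hθ1 with h | h
    · have := conc_interp' C.concT (x := s0) (y := x) (z := s0 + 1) (α := y0) (β := y0) hs0 hx1
        (by linarith) (by linarith) a1 a2
      rw [h]; linarith
    · have := conc_interp' C.concT (x := s0) (y := x) (z := s6 + 1 / 2) (α := y0)
        (β := c1 + y6) hs0 hx1 hx2 (by linarith) a1 b3
      have h2 : (y0 + 2 * θ * (x - s0)) * (s6 + 1 / 2 - s0) ≤ T x * (s6 + 1 / 2 - s0) := by
        have e : s6 + 1 / 2 - s0 = (1 + 2 * d) / 2 := by rw [hd]; ring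
        have : 2 * θ * (x - s0) * (s6 + 1 / 2 - s0) = (c1 - (y0 - y6)) * (x - s0) := by
          rw [← h, e]; ring
        nlinarith
      exact le_of_mul_le_mul_right h2 (by linarith)
  have Tgen' : ∀ x, s6 + 1 / 2 ≤ x → x ≤ s0 + 1 → y0 + 2 * θ * (s0 + 1 - x) ≤ T x := by
    intro x hx1 hx2
    rcases hθ1 with h | h
    · have := conc_interp' C.concT (x := s0) (y := x) (z := s0 + 1) (α := y0) (β := y0) hs0
        (by linarith) hx2 (by linarith) a1 a2
      rw [h]; linarith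
    · have := conc_interp' C.concT (x := s6 + 1 / 2) (y := x) (z := s0 + 1) (α := c1 + y6)
        (β := y0) (by linarith) hx1 hx2 (by linarith) b3 a2
      have h2 : (y0 + 2 * θ * (s0 + 1 - x)) * (s0 + 1 - (s6 + 1 / 2)) ≤
          T x * (s0 + 1 - (s6 + 1 / 2)) := by
        have e : s0 + 1 - (s6 + 1 / 2) = (1 - 2 * d) / 2 := by rw [hd]; ring
        have h3 : 2 * θ * (s0 + 1 - x) * (s0 + 1 - (s6 + 1 / 2)) ≤
            (c1 - (y0 - y6)) * (s0 + 1 - x) := by
          rw [← h, e]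
          have := mul_le_mul_of_nonneg_right hm2 (sub_nonneg.2 hx2)
          linarith
        nlinarith
      exact le_of_mul_le_mul_right h2 (by linarith)
  have Ugen : ∀ x, s6 ≤ x → x ≤ s0 + 1 / 2 → -y6 + 2 * θ * (x - s6) ≤ U x := by
    intro x hx1 hx2
    rcases hθ1 with h | h
    · have := conc_interp' C.concU (x := s6) (y := x) (z := s6 + 1) (α := -y6) (β := -y6) hs6 hx1
        (by linarith) (by linarith) b1 b2
      rw [h]; linarith
    · have := conc_interp' C.concU (x := s6) (y := x) (z := s0 + 1 / 2) (α := -y6)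
        (β := c1 - y0) hs6 hx1 hx2 (by linarith) b1 a3
      have h2 : (-y6 + 2 * θ * (x - s6)) * (s0 + 1 / 2 - s6) ≤ U x * (s0 + 1 / 2 - s6) := by
        have e : s0 + 1 / 2 - s6 = (1 - 2 * d) / 2 := by rw [hd]; ring
        have h3 : 2 * θ * (x - s6) * (s0 + 1 / 2 - s6) ≤ (c1 - (y0 - y6)) * (x - s6) := by
          rw [← h, e]
          have := mul_le_mul_of_nonneg_right hm2 (sub_nonneg.2 hx1)
          linarith
        nlinarith
      exact le_of_mul_le_mul_right h2 (by linarith)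
  have Ugen' : ∀ x, s0 + 1 / 2 ≤ x → x ≤ s6 + 1 → -y6 + 2 * θ * (s6 + 1 - x) ≤ U x := by
    intro x hx1 hx2
    rcases hθ1 with h | h
    · have := conc_interp' C.concU (x := s6) (y := x) (z := s6 + 1) (α := -y6) (β := -y6) hs6
        (by linarith) hx2 (by linarith) b1 b2
      rw [h]; linarith
    · have := conc_interp' C.concU (x := s0 + 1 / 2) (y := x) (z := s6 + 1) (α := c1 - y0)
        (β := -y6) (by linarith) hx1 hx2 (by linarith) a3 b2
      have h2 : (-y6 + 2 * θ * (s6 + 1 - x)) * (s6 + 1 - (s0 + 1 / 2)) ≤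
          U x * (s6 + 1 - (s0 + 1 / 2)) := by
        have e : s6 + 1 - (s0 + 1 / 2) = (1 + 2 * d) / 2 := by rw [hd]; ring
        have : 2 * θ * (s6 + 1 - x) * (s6 + 1 - (s0 + 1 / 2)) =
            (c1 - (y0 - y6)) * (s6 + 1 - x) := by
          rw [← h, e]; ring
        nlinarith
      exact le_of_mul_le_mul_right h2 (by linarith)
  -- the plateau
  have hV : ConcaveOn ℝ (Icc 0 (1 + ε)) (fun x => T x + U x) := C.concT.add C.concU
  have plat : ∀ x, 1 + ε - c1 ≤ x → x ≤ c1 → 1 ≤ T x + U x := by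
    intro x hx1 hx2
    have := conc_interp' hV (x := 1 + ε - c1) (y := x) (z := c1) (α := 1) (β := 1)
      (by linarith) hx1 hx2 (by linarith) C.P0 C.P1
    have hpos : 0 < c1 - (1 + ε - c1) := by linarith
    have h2 : 1 * (c1 - (1 + ε - c1)) ≤ (T x + U x) * (c1 - (1 + ε - c1)) := by linarith
    exact le_of_mul_le_mul_right h2 hpos
  have v0 : c1 + θ ≤ T (1 / 2 + s0) + U (1 / 2 + s0) := by
    have h1 := Tgen (1 / 2 + s0) (by linarith) (by linarith)
    rw [add_comm s0 (1 / 2)] at a3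
    linarith
  have v6 : c1 + θ ≤ T (1 / 2 + s6) + U (1 / 2 + s6) := by
    have h1 := Ugen' (1 / 2 + s6) (by linarith) (by linarith)
    rw [add_comm s6 (1 / 2)] at b3
    linarith
  refine ⟨max (θ - (1 - c1)) 0, le_max_right _ _, ?_, ?_, ?_⟩
  · rcases max_choice (θ - (1 - c1)) 0 with h | h <;> rw [h]
    · linarith
    · linarith [plat (1 / 2 + s0) (by linarith) (by linarith)]
  · rcases max_choice (θ - (1 - c1)) 0 with h | h <;> rw [h]
    · linarith
    · linarith [plat (1 / 2 + s6) (by linarith) (by linarith)]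
  · have hh : θ - (1 - c1) ≤ max (θ - (1 - c1)) 0 := le_max_left _ _
    set h := max (θ - (1 - c1)) 0
    have hmul := mul_le_mul_of_nonneg_right hh hK
    -- the integrals
    have iT1 := sub_int C.intT (p := 0) (q := s0) le_rfl hs0 (by linarith)
    have iT2 := sub_int C.intT (p := s0) (q := ε) hs0 hs0' (by linarith)
    have iT3 := sub_int C.intT (p := 1) (q := 1 + s0) (by linarith) (by linarith) (by linarith)
    have iT4 := sub_int C.intT (p := 1 + s0) (q := 1 + ε) (by linarith) (by linarith) le_rfl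
    have iU1 := sub_int C.intU (p := 0) (q := s6) le_rfl hs6 (by linarith)
    have iU2 := sub_int C.intU (p := s6) (q := ε) hs6 hs6' (by linarith)
    have iU3 := sub_int C.intU (p := 1) (q := 1 + s6) (by linarith) (by linarith) (by linarith)
    have iU4 := sub_int C.intU (p := 1 + s6) (q := 1 + ε) (by linarith) (by linarith) le_rfl
    rw [intervalIntegral.integral_add (iT1.trans iT2) (iU1.trans iU2),
      intervalIntegral.integral_add (iT3.trans iT4) (iU3.trans iU4),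
      ← intervalIntegral.integral_add_adjacent_intervals iT1 iT2,
      ← intervalIntegral.integral_add_adjacent_intervals iT3 iT4,
      ← intervalIntegral.integral_add_adjacent_intervals iU1 iU2,
      ← intervalIntegral.integral_add_adjacent_intervals iU3 iU4]
    rw [add_comm s0 1] at a2
    rw [add_comm s6 1] at b2
    have t1 := trap C.concT C.intT (p := 0) (q := s0) le_rfl hs0 (by linarith) C.T0 a1
    have t2 := trap C.concT C.intT (p := s0) (q := ε) hs0 hs0' (by linarith) a1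
      (Tgen ε hs0' (by linarith))
    have t3 := trap C.concT C.intT (p := 1) (q := 1 + s0) (by linarith) (by linarith)
      (by linarith) (Tgen' 1 (by linarith) (by linarith)) a2
    have t4 := trap C.concT C.intT (p := 1 + s0) (q := 1 + ε) (by linarith) (by linarith)
      le_rfl a2 C.Tw
    have u1 := trap C.concU C.intU (p := 0) (q := s6) le_rfl hs6 (by linarith) C.U0 b1
    have u2 := trap C.concU C.intU (p := s6) (q := ε) hs6 hs6' (by linarith) b1
      (Ugen ε hs6' (by linarith))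
    have u3 := trap C.concU C.intU (p := 1) (q := 1 + s6) (by linarith) (by linarith)
      (by linarith) (Ugen' 1 (by linarith) (by linarith)) b2
    have u4 := trap C.concU C.intU (p := 1 + s6) (q := 1 + ε) (by linarith) (by linarith)
      le_rfl b2 C.Uw
    set I1 := ∫ x in (0 : ℝ)..s0, T x
    set I2 := ∫ x in s0..ε, T x
    set I3 := ∫ x in (1 : ℝ)..(1 + s0), T x
    set I4 := ∫ x in (1 + s0)..(1 + ε), T x
    set J1 := ∫ x in (0 : ℝ)..s6, U x
    set J2 := ∫ x in s6..ε, U x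
    set J3 := ∫ x in (1 : ℝ)..(1 + s6), U x
    set J4 := ∫ x in (1 + s6)..(1 + ε), U x
    have hsum : 1.5 * ε * (y0 - y6) + θ * ((ε - s0) ^ 2 + s0 ^ 2 + (ε - s6) ^ 2 + s6 ^ 2) ≤
        I1 + I2 + (J1 + J2) + (I3 + I4 + (J3 + J4)) := by
      nlinarith
    have hsq : ε ^ 2 + d ^ 2 ≤ (ε - s0) ^ 2 + s0 ^ 2 + (ε - s6) ^ 2 + s6 ^ 2 := by
      have : (ε - s0) ^ 2 + s0 ^ 2 + (ε - s6) ^ 2 + s6 ^ 2 =
          ε ^ 2 + d ^ 2 + (ε - s0 - s6) ^ 2 := by rw [hd]; ring
      rw [this]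
      nlinarith [sq_nonneg (ε - s0 - s6)]
    have hsq' := mul_le_mul_of_nonneg_left hsq hθ0
    have hl : 1.5 * ε * (c1 - θ * (1 + 2 * d)) ≤ 1.5 * ε * (y0 - y6) :=
      mul_le_mul_of_nonneg_left (by linarith) (by linarith)
    have hk : K1 ε d = 1.5 * ε * (1 + 2 * d) - (ε ^ 2 + d ^ 2) := rfl
    rw [hk] at hmul ⊢
    nlinarith

end Pool.Agent.Helper22TC
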