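import Mathlib
import Pool.Agent.Helper22_TC.Edge

set_option autoImplicit false

open MeasureTheory Set

namespace Pool.Agent.Helper22TC

variable {ε s0 y0 s6 y6 xm : ℝ} {T U : ℝ → ℝ}

/-- `K0` -/
noncomputable def K0 (ε d : ℝ) : ℝ := 1.5 * ε * c1 - (1 - c1) * K1 ε d - ε

lemma K0_lb {ε d : ℝ} (e0 : 0 ≤ ε) (d0 : 0 ≤ d) :
    0.0980762 * ε - 0.4019238 * (ε * d) + 0.1339745 * (ε ^ 2 + d ^ 2) ≤ K0 ε d := by
  unfold K0 K1
  have h1 := c1_lb
  have h2 := c1_ub
  have h3 := mul_nonneg e0 d0
  nlinarith [sq_nonneg ε, sq_nonneg d, mul_nonneg e0 (sub_nonneg.2 h1.le),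
    mul_nonneg h3 (sub_nonneg.2 h1.le), mul_nonneg (sq_nonneg ε) (sub_nonneg.2 h2.le),
    mul_nonneg (sq_nonneg d) (sub_nonneg.2 h2.le)]

lemma K0_nonneg {ε d : ℝ} (e0 : 0 ≤ ε) (e1 : ε ≤ 0.1405) (d0 : 0 ≤ d) (d1 : d ≤ ε) :
    0 ≤ K0 ε d := by
  refine le_trans ?_ (K0_lb e0 d0)
  nlinarith [mul_nonneg e0 (sub_nonneg.2 (d1.trans e1)), sq_nonneg ε, sq_nonneg d]

/-- final numerical inequality, case A -/
lemma polyA {ε d : ℝ} (e0 : 0 ≤ ε) (e1 : ε ≤ 0.1405) (d0 : 0 ≤ d) (d1 : d ≤ ε) :
    0 ≤ K0 ε d + 0.4115 * (0.2878 + 0.325 * (ε + d) - 1.1513 * ε - K1 ε d) := by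
  have h := K0_lb e0 d0
  unfold K1
  nlinarith [sq_nonneg (d - 0.088), mul_nonneg d0 (sub_nonneg.2 e1), sq_nonneg (ε - 0.1405),
    mul_nonneg e0 (sub_nonneg.2 e1)]

/-- final numerical inequality, case B -/
lemma polyB {ε d : ℝ} (e0 : 0 ≤ ε) (e1 : ε ≤ 0.1405) (d0 : 0 ≤ d) (d1 : d ≤ ε) :
    0 ≤ (0.93915 - 2 * ε + d) * K0 ε d +
      0.24336 * (0.1439 + 0.325 * d + 0.17302 - 1.1513 * ε - K1 ε d) := by
  have h := K0_lb e0 d0
  have hN : 0 ≤ 0.93915 - 2 * ε + d := by linarith
  have h2 := mul_le_mul_of_nonneg_left h hN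
  have h3 : 0 ≤ (0.93915 - 2 * ε + d) * (0.0980762 * ε - 0.4019238 * (ε * d) +
      0.1339745 * (ε ^ 2 + d ^ 2)) +
      0.24336 * (0.1439 + 0.325 * d + 0.17302 - 1.1513 * ε -
        (1.5 * ε * (1 + 2 * d) - (ε ^ 2 + d ^ 2))) := by
    obtain ⟨x, hx⟩ : ∃ x : ℝ, x = 0.1405 - ε := ⟨_, rfl⟩
    have hε : ε = 0.1405 - x := by linarith
    have x0 : 0 ≤ x := by linarith
    have x1 : x ≤ 0.1405 := by linarith
    have d2 : d ≤ 0.1405 := by linarith
    have q0 : 0 ≤ 0.00208589 - 0.04422577 * d + 0.275065 * d ^ 2 := by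
      nlinarith [sq_nonneg (d - 0.08039)]
    have q1 : 0 ≤ 2 * (0.016424396 - 0.056470294 * d + 0.1339745 * d ^ 2) -
        (0.65815 + d) * (0.13572304 - 0.4019238 * d) + 0.24336 * (2.3702 + 3 * d) := by
      nlinarith [sq_nonneg d, mul_nonneg d0 (sub_nonneg.2 d2)]
    have m1 := mul_nonneg x0 q1
    have m2 := mul_nonneg x0 x0
    have m3 := mul_nonneg m2 x0
    have m4 := mul_nonneg m2 d0
    have m5 := mul_nonneg (mul_nonneg d0 d0) d0
    have m6 := mul_nonneg x0 d0
    have m7 := mul_nonneg m6 d0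
    subst hε
    nlinarith
  unfold K1
  linarith

theorem final_ineq (C : Core ε T U s0 y0 s6 y6) (hs : s0 ≤ s6) (hx1 : (1 + ε) / 2 ≤ xm)
    (hx2 : xm ≤ 1 + ε) (hmax : ∀ y ∈ Icc 0 (1 + ε), T y + U y ≤ T xm + U xm) :
    Astar ≤ ∫ x in (0 : ℝ)..(1 + ε), (T x + U x) := by
  have e1 := C.e1
  have e0 := C.e0
  have c1l := c1_lb
  have c1u := c1_ub
  have hs0 := C.hs0.1
  have hs0' := C.hs0.2
  have hs6 := C.hs6.1
  have hs6' := C.hs6.2
  obtain ⟨h, hh, H0, H6, hE⟩ := C.edge hs
  have hV : ConcaveOn ℝ (Icc 0 (1 + ε)) (fun x => T x + U x) := C.concT.add C.concU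
  have iV : IntervalIntegrable (fun x => T x + U x) volume 0 (1 + ε) := C.intT.add C.intU
  have M : Mid ε h s0 s6 xm (fun x => T x + U x) :=
    { e0 := e0, e1 := e1, conc := hV, int := iV, P0 := C.P0, P1 := C.P1, R := C.R, L := C.L,
      s0 := hs0, st := hs, t1 := hs6', h0 := hh, Hs := H0, Ht := H6, xm1 := hx1, xm2 := hx2,
      mx := hmax }
  have i1 := sub_int iV (p := 0) (q := ε) le_rfl e0 (by linarith)
  have i2 := sub_int iV (p := ε) (q := 1) e0 (by linarith) (by linarith)
  have i3 := sub_int iV (p := 1) (q := 1 + ε) (by linarith) (by linarith) le_rfl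
  have hsplit : ∫ x in (0 : ℝ)..(1 + ε), (T x + U x) =
      (∫ x in (0 : ℝ)..ε, (T x + U x)) + (∫ x in ε..1, (T x + U x)) +
      ∫ x in (1 : ℝ)..(1 + ε), (T x + U x) := by
    rw [intervalIntegral.integral_add_adjacent_intervals i1 i2,
      intervalIntegral.integral_add_adjacent_intervals (i1.trans i2) i3]
  have hA := Astar_ub
  have hd0 : 0 ≤ s6 - s0 := by linarith
  have hd1 : s6 - s0 ≤ ε := by linarith
  have k0 := K0_nonneg e0 e1 hd0 hd1
  have hKK : K0 ε (s6 - s0) = 1.5 * ε * c1 - (1 - c1) * K1 ε (s6 - s0) - ε := rfl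
  have P0 := C.P0
  have P1 := C.P1
  have V0 : 0 ≤ T 0 + U 0 := add_nonneg C.T0 C.U0
  have Vw : 0 ≤ T (1 + ε) + U (1 + ε) := add_nonneg C.Tw C.Uw
  rcases le_total xm 0.7071 with hx | hx
  · -- case A
    have hm := M.mainA hx
    rcases le_total h 0.4115 with hh1 | hh1
    · rw [hsplit]
      have p := polyA e0 e1 hd0 hd1
      have key : 0 ≤ K0 ε (s6 - s0) + h * (0.2878 + 0.325 * (ε - s0 + s6) - 1.1513 * ε -
          K1 ε (s6 - s0)) := by
        have e : ε - s0 + s6 = ε + (s6 - s0) := by ring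
        rw [e]
        set c := 0.2878 + 0.325 * (ε + (s6 - s0)) - 1.1513 * ε - K1 ε (s6 - s0)
        rcases le_total 0 c with hc | hc
        · have := mul_nonneg hh hc
          linarith
        · nlinarith
      linarith
    · -- hull
      have h1 := trap hV iV (p := 0) (q := 1 + ε - c1) le_rfl (by linarith) (by linarith) V0 P0
      have h2 := trap hV iV (p := 1 + ε - c1) (q := 1 / 2 + s0) (by linarith) (by linarith)
        (by linarith) P0 H0
      have h3 := trap hV iV (p := 1 / 2 + s0) (q := 1 / 2 + s6) (by linarith) (by linarith)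
        (by linarith) H0 H6
      have h4 := trap hV iV (p := 1 / 2 + s6) (q := c1) (by linarith) (by linarith)
        (by linarith) H6 P1
      have h5 := trap hV iV (p := c1) (q := 1 + ε) (by linarith) (by linarith) le_rfl P1 Vw
      have hs : ∫ x in (0 : ℝ)..(1 + ε), (T x + U x) =
          (∫ x in (0 : ℝ)..(1 + ε - c1), (T x + U x)) +
          (∫ x in (1 + ε - c1)..(1 / 2 + s0), (T x + U x)) +
          (∫ x in (1 / 2 + s0)..(1 / 2 + s6), (T x + U x)) +
          (∫ x in (1 / 2 + s6)..c1, (T x + U x)) + ∫ x in c1..(1 + ε), (T x + U x) := by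
        have j1 := sub_int iV (p := 0) (q := 1 + ε - c1) le_rfl (by linarith) (by linarith)
        have j2 := sub_int iV (p := 1 + ε - c1) (q := 1 / 2 + s0) (by linarith) (by linarith)
          (by linarith)
        have j3 := sub_int iV (p := 1 / 2 + s0) (q := 1 / 2 + s6) (by linarith) (by linarith)
          (by linarith)
        have j4 := sub_int iV (p := 1 / 2 + s6) (q := c1) (by linarith) (by linarith)
          (by linarith)
        have j5 := sub_int iV (p := c1) (q := 1 + ε) (by linarith) (by linarith) le_rfl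
        rw [intervalIntegral.integral_add_adjacent_intervals j1 j2,
          intervalIntegral.integral_add_adjacent_intervals (j1.trans j2) j3,
          intervalIntegral.integral_add_adjacent_intervals ((j1.trans j2).trans j3) j4,
          intervalIntegral.integral_add_adjacent_intervals (((j1.trans j2).trans j3).trans j4) j5]
      rw [hs]
      have hN : 0.59155 ≤ 2 * c1 - 1 - ε + (s6 - s0) := by linarith
      have hmul := mul_le_mul hh1 hN (by norm_num) hh
      nlinarith
  · -- case B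
    have hm := M.mainB hx
    have hz : 1 + h ≤ T 0.7071 + U 0.7071 :=
      H0.trans (M.mono (x := 1 / 2 + s0) (y := 0.7071) (by linarith) (by linarith) hx)
    rcases le_total (h * (0.93915 - 2 * ε + (s6 - s0))) 0.24336 with hh1 | hh1
    · rw [hsplit]
      have p := polyB e0 e1 hd0 hd1
      have hN : 0 < 0.93915 - 2 * ε + (s6 - s0) := by linarith
      have key : 0 ≤ K0 ε (s6 - s0) + h * (0.1439 + 0.325 * (s6 - s0) + 0.17302 -
          1.1513 * ε - K1 ε (s6 - s0)) := by
        set c := 0.1439 + 0.325 * (s6 - s0) + 0.17302 - 1.1513 * ε - K1 ε (s6 - s0)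
        rcases le_total 0 c with hc | hc
        · have := mul_nonneg hh hc
          linarith
        · have : 0 ≤ (K0 ε (s6 - s0) + h * c) * (0.93915 - 2 * ε + (s6 - s0)) := by
            nlinarith
          exact nonneg_of_mul_nonneg_left this hN
      have hds : h * (0.325 * (s6 - s0)) ≤ h * (0.325 * (ε - s0)) :=
        mul_le_mul_of_nonneg_left (by linarith) hh
      linarith
    · have h1 := trap hV iV (p := 0) (q := 1 + ε - c1) le_rfl (by linarith) (by linarith) V0 P0
      have h2 := trap hV iV (p := 1 + ε - c1) (q := 1 / 2 + s0) (by linarith) (by linarith)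
        (by linarith) P0 H0
      have h3 := trap hV iV (p := 1 / 2 + s0) (q := 0.7071) (by linarith) (by linarith)
        (by linarith) H0 hz
      have h4 := trap hV iV (p := 0.7071) (q := c1) (by linarith) (by linarith)
        (by linarith) hz P1
      have h5 := trap hV iV (p := c1) (q := 1 + ε) (by linarith) (by linarith) le_rfl P1 Vw
      have hs : ∫ x in (0 : ℝ)..(1 + ε), (T x + U x) =
          (∫ x in (0 : ℝ)..(1 + ε - c1), (T x + U x)) +
          (∫ x in (1 + ε - c1)..(1 / 2 + s0), (T x + U x)) +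
          (∫ x in (1 / 2 + s0)..0.7071, (T x + U x)) +
          (∫ x in (0.7071 : ℝ)..c1, (T x + U x)) + ∫ x in c1..(1 + ε), (T x + U x) := by
        have j1 := sub_int iV (p := 0) (q := 1 + ε - c1) le_rfl (by linarith) (by linarith)
        have j2 := sub_int iV (p := 1 + ε - c1) (q := 1 / 2 + s0) (by linarith) (by linarith)
          (by linarith)
        have j3 := sub_int iV (p := 1 / 2 + s0) (q := 0.7071) (by linarith) (by linarith)
          (by linarith)
        have j4 := sub_int iV (p := 0.7071) (q := c1) (by linarith) (by linarith)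
          (by linarith)
        have j5 := sub_int iV (p := c1) (q := 1 + ε) (by linarith) (by linarith) le_rfl
        rw [intervalIntegral.integral_add_adjacent_intervals j1 j2,
          intervalIntegral.integral_add_adjacent_intervals (j1.trans j2) j3,
          intervalIntegral.integral_add_adjacent_intervals ((j1.trans j2).trans j3) j4,
          intervalIntegral.integral_add_adjacent_intervals (((j1.trans j2).trans j3).trans j4) j5]
      rw [hs]
      have hN : 0.93915 - 2 * ε + (s6 - s0) ≤ 2 * c1 + 0.7071 - 1.5 - ε - s0 := by linarith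
      have hmul := mul_le_mul_of_nonneg_left hN hh
      nlinarith

theorem area_core (C : Core ε T U s0 y0 s6 y6) (hx1 : xm ∈ Icc 0 (1 + ε))
    (hmax : ∀ y ∈ Icc 0 (1 + ε), T y + U y ≤ T xm + U xm) :
    Astar ≤ ∫ x in (0 : ℝ)..(1 + ε), (T x + U x) := by
  -- first: reduction to `xm ≥ w/2`, then to `s0 ≤ s6`
  have main : ∀ {T U : ℝ → ℝ} {s0 y0 s6 y6 xm : ℝ}, Core ε T U s0 y0 s6 y6 →
      (1 + ε) / 2 ≤ xm → xm ≤ 1 + ε → (∀ y ∈ Icc 0 (1 + ε), T y + U y ≤ T xm + U xm) →
      Astar ≤ ∫ x in (0 : ℝ)..(1 + ε), (T x + U x) := by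
    intro T U s0 y0 s6 y6 xm C h1 h2 h3
    rcases le_total s0 s6 with hs | hs
    · exact final_ineq C hs h1 h2 h3
    · have := final_ineq C.flip hs h1 h2 (fun y hy => by linarith [h3 y hy])
      simpa [add_comm] using this
  rcases le_total ((1 + ε) / 2) xm with h1 | h1
  · exact main C h1 hx1.2 hmax
  · have := main C.refl (xm := 1 + ε - xm) (by linarith) (by linarith [hx1.1])
      (fun y hy => by
        have := hmax (1 + ε - y) ⟨by linarith [hy.2], by linarith [hy.1]⟩
        simpa using this)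
    rw [integral_refl (fun x => T x + U x)] at this
    exact this

theorem area_bound (h : Frame ε T U) : Astar ≤ ∫ x in (0 : ℝ)..(1 + ε), (T x + U x) := by
  rcases le_total ε 0.1405 with h1 | h1
  · obtain ⟨s0, y0, s6, y6, C⟩ := h.core h1
    obtain ⟨xm, hx, hm⟩ := h.peak
    exact area_core C hx hm
  · rcases le_total ε (1 / 2) with h2 | h2
    · exact area_mid h h1 h2
    · exact area_large h h2

end Pool.Agent.Helper22TC
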